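import Pool.Agent.Helper80.LP.Pairs

/-!
# Rank four data of a set with many points and short lines
-/

set_option autoImplicit false
set_option linter.unusedSectionVars false

namespace Pool.Agent.Helper80.LP

open Pool.Agent.Helper28.BPack Pool.Agent.Helper61.Motz Pool.Agent.Helper63.HM

variable {L : Type} [Lattice L] [BoundedOrder L] [Finite L] [IsUpperModularLattice L]

/-- Four independent points. -/
theorem crit4_basis {B : Finset L} (hc : B.card = 4) (hr : rk (B.sup id) = 4) : Crit4 B := by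
  classical
  let e := B.equivFinOfCardEq hc
  have hq : ∀ q ∈ B, ¬ ∀ i, q ≠ (e.symm i).1 := by
    intro q hq h
    apply h (e ⟨q, hq⟩)
    rw [Equiv.symm_apply_apply]
  refine ⟨fun i => (e.symm i).1, id, id, fun i => (e.symm i).2, ?_,
    fun q hqB h => (hq q hqB h).elim, fun q hqB h => (hq q hqB h).elim,
    fun q hqB h => (hq q hqB h).elim, fun q hqB h => (hq q hqB h).elim,
    fun q hqB h => (hq q hqB h).elim, fun q hqB h => (hq q hqB h).elim,
    fun q hqB h => (hq q hqB h).elim, fun q hqB h => (hq q hqB h).elim⟩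
  have h1 : (Finset.univ : Finset (Fin 4)).sup (fun i => (e.symm i).1) = B.sup id := by
    apply le_antisymm
    · exact Finset.sup_le fun i _ => Finset.le_sup (f := id) (e.symm i).2
    · refine Finset.sup_le fun q hqB => ?_
      have h2 : q = (e.symm (e ⟨q, hqB⟩)).1 := by rw [Equiv.symm_apply_apply]
      change q ≤ _
      rw [h2]
      exact Finset.le_sup (f := fun i => (e.symm i).1) (Finset.mem_univ _)
  rw [h1, hr]

section count

variable [DecidableEq L] [DecidableRel (α := L) (· ≤ ·)]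

/-- `g` contains no two points of `B`. -/
def Ok2 (B : Finset L) (g : L) : Prop := ∀ a ∈ B, ∀ e ∈ B, a ≠ e → a ≤ g → e ≤ g → False

/-- `H` contains no three independent points of `B`. -/
def Ok3 (B : Finset L) (H : L) : Prop :=
  ∀ a ∈ B, ∀ e ∈ B, ∀ t ∈ B, rk (a ⊔ e ⊔ t) = 3 → a ≤ H → e ≤ H → t ≤ H → False

theorem atoms_of_rk3 {a b c : L} (ha : IsAtom a) (hb : IsAtom b) (hc : IsAtom c)
    (h : rk (a ⊔ b ⊔ c) = 3) : rk (a ⊔ b) = 2 ∧ rk (a ⊔ c) = 2 := by
  obtain ⟨h1, h2, -⟩ := ne_of_rk3 ha hb hc h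
  exact ⟨rk_line ha hb h1, rk_line ha hc h2⟩

/-- The number of pairs which span a plane with `z`. -/
theorem card_pairs {A : Finset L} (hA : ∀ a ∈ A, IsAtom a) {s : ℕ}
    (hs : ∀ g, rk g = 2 → (A.filter (· ≤ g)).card ≤ s) {z : L} (hz : z ∈ A) :
    (A.card - 1) * (A.card - s) ≤
      ((A ×ˢ A).filter (fun p => rk (z ⊔ p.1 ⊔ p.2) = 3)).card := by
  rw [Finset.card_filter, Finset.sum_product]
  have h1 : ∀ q ∈ A.erase z, A.card - s ≤ ∑ q' ∈ A, if rk (z ⊔ q ⊔ q') = 3 then 1 else 0 := by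
    intro q hq
    rw [← Finset.card_filter]
    have hqA := Finset.mem_of_mem_erase hq
    have hl := rk_line (hA z hz) (hA q hqA) (Finset.ne_of_mem_erase hq).symm
    have h2 : A.filter (fun q' => ¬ q' ≤ z ⊔ q) ⊆ A.filter (fun q' => rk (z ⊔ q ⊔ q') = 3) := by
      intro q' hq'
      rw [Finset.mem_filter] at hq' ⊢
      exact ⟨hq'.1, by rw [rk_sup_atom (hA q' hq'.1) hq'.2, hl]⟩
    have h3 := Finset.card_le_card h2
    have h4 := Finset.card_filter_add_card_filter_not (s := A) (fun q' => q' ≤ z ⊔ q)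
    have h5 := hs _ hl
    omega
  calc (A.card - 1) * (A.card - s) = ∑ _q ∈ A.erase z, (A.card - s) := by
        rw [Finset.sum_const, Finset.card_erase_of_mem hz, smul_eq_mul]
    _ ≤ ∑ q ∈ A.erase z, ∑ q' ∈ A, (if rk (z ⊔ q ⊔ q') = 3 then 1 else 0) :=
        Finset.sum_le_sum h1
    _ ≤ ∑ q ∈ A, ∑ q' ∈ A, (if rk (z ⊔ q ⊔ q') = 3 then 1 else 0) :=
        Finset.sum_le_sum_of_subset (Finset.erase_subset z A)

/-- The points on the lines of `B`. -/
theorem card_lines {A B : Finset L} (hB : ∀ a ∈ B, IsAtom a) (hc : B.card = 4) {s : ℕ}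
    (hs : ∀ g, rk g = 2 → (A.filter (· ≤ g)).card ≤ s) :
    ((B.powersetCard 2).biUnion (fun S => A.filter (· ≤ S.sup id))).card ≤ 6 * s := by
  refine Finset.card_biUnion_le.trans ?_
  have h1 : ∀ S ∈ B.powersetCard 2, (A.filter (· ≤ S.sup id)).card ≤ s := by
    intro S hS
    rw [Finset.mem_powersetCard] at hS
    obtain ⟨a, e, hae, rfl⟩ := Finset.card_eq_two.mp hS.2
    apply hs
    rw [Finset.sup_insert, Finset.sup_singleton]
    exact rk_line (hB a (hS.1 (by simp))) (hB e (hS.1 (by simp))) hae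
  refine (Finset.sum_le_sum h1).trans ?_
  rw [Finset.sum_const, Finset.card_powersetCard, hc, smul_eq_mul]
  have h2 : Nat.choose 4 2 = 6 := by decide
  rw [h2]

theorem card_planes {A B : Finset L} (hB : ∀ a ∈ B, IsAtom a) (hc : B.card = 4) {t : ℕ}
    (ht : ∀ H, rk H = 3 → (A.filter (· ≤ H)).card ≤ t) :
    (((B.powersetCard 3).filter (fun S => rk (S.sup id) = 3)).biUnion
      (fun S => A.filter (· ≤ S.sup id) ×ˢ A.filter (· ≤ S.sup id))).card ≤ 4 * t ^ 2 := by
  refine Finset.card_biUnion_le.trans ?_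
  have h1 : ∀ S ∈ (B.powersetCard 3).filter (fun S => rk (S.sup id) = 3),
      (A.filter (· ≤ S.sup id) ×ˢ A.filter (· ≤ S.sup id)).card ≤ t ^ 2 := by
    intro S hS
    rw [Finset.mem_filter] at hS
    rw [Finset.card_product, pow_two]
    exact Nat.mul_le_mul (ht _ hS.2) (ht _ hS.2)
  refine (Finset.sum_le_sum h1).trans ?_
  rw [Finset.sum_const, smul_eq_mul]
  refine Nat.mul_le_mul_right _ ((Finset.card_le_card (Finset.filter_subset _ _)).trans ?_)
  rw [Finset.card_powersetCard, hc]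
  decide

/-- **Many points.**  The rank four set `A` has `n` points, at most `s` on every line, at most
`t` on every plane. -/
theorem crit4_many_gen {A : Finset L} (hA : ∀ a ∈ A, IsAtom a) (hr : rk (A.sup id) = 4) (s t : ℕ)
    (hs : ∀ g, rk g = 2 → (A.filter (· ≤ g)).card ≤ s)
    (ht : ∀ H, rk H = 3 → (A.filter (· ≤ H)).card ≤ t)
    (hn : t ^ 3 + 4 * t ^ 2 + 4 * s ^ 2 * A.card + 12 * s * A.card ≤
      (A.card - 1) * (A.card - s)) : Crit4 A := by
  classical
  obtain ⟨B, hBA, hB1, hB2⟩ := exists_basis (⊥ : L) A hA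
  rw [bot_sup_eq, bot_sup_eq] at hB1
  rw [bot_sup_eq, hr, rk_bot] at hB2
  have hc : B.card = 4 := by omega
  have hBat : ∀ a ∈ B, IsAtom a := fun a ha => hA a (hBA ha)
  have hBr : rk (B.sup id) = 4 := by rw [hB1, hr]
  have h4 := crit4_basis hc hBr
  have hB0 : 0 < B.card := by omega
  -- `s` is positive
  obtain ⟨b0, b1, hb01, hb0, hb1⟩ : ∃ b0 b1, b0 ≠ b1 ∧ b0 ∈ B ∧ b1 ∈ B := by
    obtain ⟨x, hx, y, hy, hxy⟩ := Finset.one_lt_card.mp (show 1 < B.card by omega)
    exact ⟨x, y, hxy, hx, hy⟩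
  have hs1 : 1 ≤ s := by
    have h1 := hs _ (rk_line (hBat _ hb0) (hBat _ hb1) hb01)
    have h2 : b0 ∈ A.filter (· ≤ b0 ⊔ b1) := Finset.mem_filter.mpr ⟨hBA hb0, le_sup_left⟩
    have h3 := Finset.card_pos.mpr ⟨b0, h2⟩
    omega
  have hn0 : 0 < A.card := Finset.card_pos.mpr ⟨b0, hBA hb0⟩
  set n := A.card with hnn
  set M := (n - 1) * (n - s) - (12 * s * n + 4 * t ^ 2) with hM
  have hM1 : t ^ 3 + 4 * s ^ 2 * n ≤ M := by omega
  have hM0 : 0 < M := by
    have h1 : 0 < s ^ 2 * n := by positivity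
    have h2 : 4 * s ^ 2 * n = 4 * (s ^ 2 * n) := by ring
    omega
  set V0 : Finset (L × L × L) := (A ×ˢ A ×ˢ A).filter (fun v => v.1 ∉ B ∧
    rk (v.1 ⊔ v.2.1 ⊔ v.2.2) = 3 ∧ Ok2 B (v.1 ⊔ v.2.1) ∧ Ok2 B (v.1 ⊔ v.2.2) ∧
    Ok3 B (v.1 ⊔ v.2.1 ⊔ v.2.2)) with hV0
  have hmem : ∀ v, v ∈ V0 ↔ (v.1 ∈ A ∧ v.2.1 ∈ A ∧ v.2.2 ∈ A) ∧ v.1 ∉ B ∧
      rk (v.1 ⊔ v.2.1 ⊔ v.2.2) = 3 ∧ Ok2 B (v.1 ⊔ v.2.1) ∧ Ok2 B (v.1 ⊔ v.2.2) ∧
      Ok3 B (v.1 ⊔ v.2.1 ⊔ v.2.2) := by
    intro v
    rw [hV0, Finset.mem_filter, Finset.mem_product, Finset.mem_product]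
  have hline : ∀ v ∈ V0, rk (v.1 ⊔ v.2.1) = 2 ∧ rk (v.1 ⊔ v.2.2) = 2 := by
    intro v hv
    obtain ⟨⟨h1, h2, h3⟩, -, h5, -⟩ := (hmem v).mp hv
    exact atoms_of_rk3 (hA _ h1) (hA _ h2) (hA _ h3) h5
  -- loads of lines
  have hld2 : ∀ g, rk g = 2 → ldn V0 g ≤ 2 * s ^ 2 * n := by
    intro g hg
    have h1 : V0.filter (fun u => Uses u g) ⊆
        (A.filter (· ≤ g) ×ˢ A.filter (· ≤ g) ×ˢ A) ∪
        (A.filter (· ≤ g) ×ˢ A ×ˢ A.filter (· ≤ g)) := by
      intro v hv
      rw [Finset.mem_filter] at hv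
      obtain ⟨⟨k1, k2, k3⟩, -, k5, -⟩ := (hmem v).mp hv.1
      rw [Finset.mem_union]
      simp only [Finset.mem_product, Finset.mem_filter]
      rcases hv.2 with h | h | h
      · exact Or.inl ⟨⟨k1, h ▸ le_sup_left⟩, ⟨k2, h ▸ le_sup_right⟩, k3⟩
      · exact Or.inr ⟨⟨k1, h ▸ le_sup_left⟩, k2, k3, h ▸ le_sup_right⟩
      · rw [h, k5] at hg
        omega
    have h2 := Finset.card_le_card h1
    have h3 := Finset.card_union_le (A.filter (· ≤ g) ×ˢ A.filter (· ≤ g) ×ˢ A)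
      (A.filter (· ≤ g) ×ˢ A ×ˢ A.filter (· ≤ g))
    rw [Finset.card_product, Finset.card_product, Finset.card_product, Finset.card_product] at h3
    have h4 : (A.filter (· ≤ g)).card * ((A.filter (· ≤ g)).card * n) ≤ s * (s * n) :=
      Nat.mul_le_mul (hs g hg) (Nat.mul_le_mul_right _ (hs g hg))
    have h5 : (A.filter (· ≤ g)).card * (n * (A.filter (· ≤ g)).card) ≤ s * (n * s) :=
      Nat.mul_le_mul (hs g hg) (Nat.mul_le_mul_left _ (hs g hg))
    have h6 : s * (s * n) + s * (n * s) = 2 * s ^ 2 * n := by ring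
    have h7 : ldn V0 g = (V0.filter (fun u => Uses u g)).card := rfl
    rw [← hnn] at h3
    omega
  have hld3 : ∀ H, rk H = 3 → ldn V0 H ≤ t ^ 3 := by
    intro H hH
    have h1 : V0.filter (fun u => Uses u H) ⊆
        A.filter (· ≤ H) ×ˢ A.filter (· ≤ H) ×ˢ A.filter (· ≤ H) := by
      intro v hv
      rw [Finset.mem_filter] at hv
      obtain ⟨⟨k1, k2, k3⟩, -, k5, -⟩ := (hmem v).mp hv.1
      obtain ⟨l1, l2⟩ := hline v hv.1
      simp only [Finset.mem_product, Finset.mem_filter]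
      rcases hv.2 with h | h | h
      · rw [h, l1] at hH
        omega
      · rw [h, l2] at hH
        omega
      · exact ⟨⟨k1, h ▸ le_sup_left.trans le_sup_left⟩, ⟨k2, h ▸ le_sup_right.trans le_sup_left⟩,
          k3, h ▸ le_sup_right⟩
    have h2 := Finset.card_le_card h1
    rw [Finset.card_product, Finset.card_product] at h2
    have h4 : (A.filter (· ≤ H)).card * ((A.filter (· ≤ H)).card * (A.filter (· ≤ H)).card) ≤
        t * (t * t) := Nat.mul_le_mul (ht H hH) (Nat.mul_le_mul (ht H hH) (ht H hH))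
    have h6 : t * (t * t) = t ^ 3 := by ring
    have h7 : ldn V0 H = (V0.filter (fun u => Uses u H)).card := rfl
    omega
  refine crit4_of_count (B := B) (V0 := V0) hM0 hA hBA h4 ?_ ?_ ?_ ?_ ?_ ?_
  · intro v hv
    obtain ⟨⟨k1, k2, k3⟩, k4, k5, -⟩ := (hmem v).mp hv
    exact ⟨k1, k4, k2, k3, k5⟩
  · intro v hv
    exact ((hmem v).mp hv).2.2.2.1
  · intro v hv
    exact ((hmem v).mp hv).2.2.2.2.1
  · intro v hv
    exact ((hmem v).mp hv).2.2.2.2.2
  · -- the count
    intro z hz hzB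
    have hp := card_pairs hA hs hz
    rw [← hnn] at hp
    set S := (A ×ˢ A).filter (fun p => rk (z ⊔ p.1 ⊔ p.2) = 3) with hS
    set G := S.filter (fun p => Ok2 B (z ⊔ p.1) ∧ Ok2 B (z ⊔ p.2) ∧ Ok3 B (z ⊔ p.1 ⊔ p.2)) with hG
    set Ln := (B.powersetCard 2).biUnion (fun S => A.filter (· ≤ S.sup id)) with hLn
    set Pn := ((B.powersetCard 3).filter (fun S => rk (S.sup id) = 3)).biUnion
      (fun S => A.filter (· ≤ S.sup id) ×ˢ A.filter (· ≤ S.sup id)) with hPn
    have hLc : Ln.card ≤ 6 * s := card_lines hBat hc hs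
    have hPc : Pn.card ≤ 4 * t ^ 2 := card_planes hBat hc ht
    -- a line with two points of `B`
    have hkey : ∀ q ∈ A, rk (z ⊔ q) = 2 → ¬ Ok2 B (z ⊔ q) → q ∈ Ln := by
      intro q hq hl hno
      unfold Ok2 at hno
      push Not at hno
      obtain ⟨a, ha, e, he, hae, h1, h2, -⟩ := hno
      have h3 := line_eq (hBat a ha) (hBat e he) hae h1 h2 hl
      rw [hLn, Finset.mem_biUnion]
      refine ⟨{a, e}, Finset.mem_powersetCard.mpr ⟨?_, Finset.card_pair hae⟩, ?_⟩
      · intro x hx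
        rw [Finset.mem_insert, Finset.mem_singleton] at hx
        rcases hx with rfl | rfl
        exacts [ha, he]
      · rw [Finset.mem_filter, Finset.sup_insert, Finset.sup_singleton]
        refine ⟨hq, ?_⟩
        change q ≤ a ⊔ e
        rw [h3]
        exact le_sup_right
    have hsub : S ⊆ G ∪ (Ln ×ˢ A ∪ A ×ˢ Ln ∪ Pn) := by
      intro p hp
      rw [hS, Finset.mem_filter, Finset.mem_product] at hp
      obtain ⟨⟨p1, p2⟩, p3⟩ := hp
      obtain ⟨l1, l2⟩ := atoms_of_rk3 (hA z hz) (hA _ p1) (hA _ p2) p3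
      rw [Finset.mem_union, Finset.mem_union, Finset.mem_union]
      by_cases c1 : Ok2 B (z ⊔ p.1)
      · by_cases c2 : Ok2 B (z ⊔ p.2)
        · by_cases c3 : Ok3 B (z ⊔ p.1 ⊔ p.2)
          · left
            rw [hG, Finset.mem_filter, hS, Finset.mem_filter, Finset.mem_product]
            exact ⟨⟨⟨p1, p2⟩, p3⟩, c1, c2, c3⟩
          · right
            right
            unfold Ok3 at c3
            push Not at c3
            obtain ⟨a, ha, e, he, t', ht', h1, h2, h3, h5, -⟩ := c3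
            obtain ⟨m1, m2, m3⟩ := ne_of_rk3 (hBat a ha) (hBat e he) (hBat t' ht') h1
            have h6 : a ⊔ e ⊔ t' = z ⊔ p.1 ⊔ p.2 :=
              eq_of_le_of_rk (sup_le (sup_le h2 h3) h5) (by rw [h1, p3])
            have h7 : ({a, e, t'} : Finset L).sup id = z ⊔ p.1 ⊔ p.2 := by
              rw [Finset.sup_insert, Finset.sup_insert, Finset.sup_singleton, ← h6, sup_assoc]
              rfl
            rw [hPn, Finset.mem_biUnion]
            refine ⟨{a, e, t'}, ?_, ?_⟩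
            · rw [Finset.mem_filter, Finset.mem_powersetCard, h7]
              refine ⟨⟨?_, Finset.card_eq_three.mpr ⟨a, e, t', m1, m2, m3, rfl⟩⟩, p3⟩
              intro x hx
              rw [Finset.mem_insert, Finset.mem_insert, Finset.mem_singleton] at hx
              rcases hx with rfl | rfl | rfl
              exacts [ha, he, ht']
            · rw [Finset.mem_product, Finset.mem_filter, Finset.mem_filter, h7]
              exact ⟨⟨p1, le_sup_right.trans le_sup_left⟩, p2, le_sup_right⟩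
        · right
          left
          right
          rw [Finset.mem_product]
          exact ⟨p1, hkey _ p2 l2 c2⟩
      · right
        left
        left
        rw [Finset.mem_product]
        exact ⟨hkey _ p1 l1 c1, p2⟩
    have h1 := Finset.card_le_card hsub
    have h2 := Finset.card_union_le G (Ln ×ˢ A ∪ A ×ˢ Ln ∪ Pn)
    have h3 := Finset.card_union_le (Ln ×ˢ A ∪ A ×ˢ Ln) Pn
    have h5 := Finset.card_union_le (Ln ×ˢ A) (A ×ˢ Ln)
    rw [Finset.card_product, Finset.card_product, ← hnn] at h5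
    have h6 : Ln.card * n ≤ 6 * s * n := Nat.mul_le_mul_right _ hLc
    have h7 : n * Ln.card ≤ n * (6 * s) := Nat.mul_le_mul_left _ hLc
    have h8 : 6 * s * n + n * (6 * s) = 12 * s * n := by ring
    have h9 : M ≤ G.card := by omega
    refine h9.trans ?_
    refine Finset.card_le_card_of_injOn (fun p => (z, p)) ?_ ?_
    · intro p hp
      have hp' : p ∈ G := hp
      rw [hG, Finset.mem_filter, hS, Finset.mem_filter, Finset.mem_product] at hp'
      obtain ⟨⟨⟨p1, p2⟩, p3⟩, p4, p5, p6⟩ := hp'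
      have : (z, p) ∈ V0.filter (fun v => v.1 = z) := by
        rw [Finset.mem_filter, hmem]
        exact ⟨⟨⟨hz, p1, p2⟩, hzB, p3, p4, p5, p6⟩, rfl⟩
      rw [Finset.mem_coe]
      convert this
    · intro p _ p' _ h
      exact (Prod.mk.inj h).2
  · intro v hv
    obtain ⟨l1, l2⟩ := hline v hv
    have h1 := hld2 _ l1
    have h2 := hld2 _ l2
    have h3 := hld3 _ ((hmem v).mp hv).2.2.1
    have h5 : 2 * s ^ 2 * n + 2 * s ^ 2 * n = 4 * s ^ 2 * n := by ring
    omega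

/-- **Many points and short lines.** -/
theorem crit4_many {A : Finset L} (hA : ∀ a ∈ A, IsAtom a) (hr : rk (A.sup id) = 4) (s : ℕ)
    (hs : ∀ g, rk g = 2 → (A.filter (· ≤ g)).card ≤ s)
    (hP : ∀ P, rk P = 3 → (A.filter (· ≤ P)).card ≤ s ^ 2 + 3 * s)
    (hn : (s + 3) ^ 3 ≤ A.card) : Crit4 A := by
  refine crit4_many_gen hA hr s (s ^ 2 + 3 * s) hs hP ?_
  obtain ⟨k, hk⟩ := Nat.exists_eq_add_of_le hn
  have h1 : A.card - 1 = s ^ 3 + 9 * s ^ 2 + 27 * s + 26 + k := by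
    have h2 : (s + 3) ^ 3 = s ^ 3 + 9 * s ^ 2 + 27 * s + 27 := by ring
    omega
  have h2 : A.card - s = s ^ 3 + 9 * s ^ 2 + 26 * s + 27 + k := by
    have h2 : (s + 3) ^ 3 = s ^ 3 + 9 * s ^ 2 + 27 * s + 27 := by ring
    omega
  rw [h1, h2, hk]
  nlinarith [Nat.zero_le s, Nat.zero_le k, mul_nonneg (Nat.zero_le s) (Nat.zero_le k)]

end count

end Pool.Agent.Helper80.LP
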