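import Pool.Agent.Helper80.LP.Plane
import Pool.Agent.Helper63.CR.Planes1

/-!
# Rank four data of a set with a long line and small planes
-/

set_option autoImplicit false
set_option linter.unusedSectionVars false

namespace Pool.Agent.Helper80.LP

open Pool.Agent.Helper28.BPack Pool.Agent.Helper61.Motz Pool.Agent.Helper63.HM
  Pool.Agent.Helper63.CR

variable {L : Type} [Lattice L] [BoundedOrder L] [Finite L] [IsUpperModularLattice L]

section longline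

variable [DecidableEq L] [DecidableRel (α := L) (· ≤ ·)]

/-- Few points of `u` lie on a line through `z` with many points. -/
theorem card_rows {A : Finset L} (hA : ∀ a ∈ A, IsAtom a) {N : ℕ}
    (hN : ∀ H, rk H = 3 → (A.filter (· ≤ H)).card ≤ N) {u z : L} (hu : rk u = 2)
    (hKN : 32 * N ≤ (A.filter (· ≤ u)).card ^ 2) (hU0 : 0 < (A.filter (· ≤ u)).card)
    (hz : z ∈ A) (hzu : ¬ z ≤ u) :
    3 * (A.filter (· ≤ u)).card ≤
      4 * ((A.filter (· ≤ u)).filter (fun c => 8 * (A.filter (· ≤ z ⊔ c)).card ≤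
        (A.filter (· ≤ u)).card + 8)).card := by
  classical
  set S := A.filter (· ≤ u) with hS
  set Bd := S.filter (fun c => ¬ 8 * (A.filter (· ≤ z ⊔ c)).card ≤ S.card + 8) with hBd
  have h1 := Finset.card_filter_add_card_filter_not (s := S)
    (fun c => 8 * (A.filter (· ≤ z ⊔ c)).card ≤ S.card + 8)
  rw [← hBd] at h1
  have hmS : ∀ c, c ∈ S ↔ c ∈ A ∧ c ≤ u := fun c => by rw [hS, Finset.mem_filter]
  have hne : ∀ c ∈ S, z ≠ c := fun c hc h => hzu (h ▸ ((hmS c).mp hc).2)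
  have hrl : ∀ c ∈ S, rk (z ⊔ c) = 2 := fun c hc =>
    rk_line (hA z hz) (hA c ((hmS c).mp hc).1) (hne c hc)
  have h3 : rk (z ⊔ u) = 3 := by
    rw [sup_comm, rk_sup_atom (hA z hz) hzu, hu]
  have hdis : ∀ c ∈ Bd, ∀ c' ∈ Bd, c ≠ c' → Disjoint ((A.filter (· ≤ z ⊔ c)).erase z)
      ((A.filter (· ≤ z ⊔ c')).erase z) := by
    intro c hc c' hc' hcc
    have hc1 := (Finset.mem_filter.mp hc).1
    have hc2 := (Finset.mem_filter.mp hc').1
    rw [Finset.disjoint_left]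
    intro p hp hp'
    rw [Finset.mem_erase, Finset.mem_filter] at hp hp'
    have e1 := line_eq (hA z hz) (hA p hp.2.1) hp.1.symm le_sup_left hp.2.2 (hrl c hc1)
    have e2 := line_eq (hA z hz) (hA p hp.2.1) hp.1.symm le_sup_left hp'.2.2 (hrl c' hc2)
    have e3 : c' ≤ z ⊔ c := by
      rw [← e1, e2]
      exact le_sup_right
    have e4 := line_eq (hA c ((hmS c).mp hc1).1) (hA c' ((hmS c').mp hc2).1) hcc le_sup_right e3
      (hrl c hc1)
    exact hzu ((le_sup_left : z ≤ z ⊔ c).trans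
      (e4 ▸ sup_le ((hmS c).mp hc1).2 ((hmS c').mp hc2).2))
  have h4 : Bd.card * S.card ≤ ∑ c ∈ Bd, 8 * ((A.filter (· ≤ z ⊔ c)).erase z).card := by
    rw [← smul_eq_mul]
    refine Finset.card_nsmul_le_sum _ _ _ fun c hc => ?_
    have h5 := (Finset.mem_filter.mp hc).2
    rw [Finset.card_erase_of_mem (Finset.mem_filter.mpr ⟨hz, le_sup_left⟩)]
    omega
  rw [← Finset.mul_sum, ← Finset.card_biUnion hdis] at h4
  have h5 : (Bd.biUnion fun c => (A.filter (· ≤ z ⊔ c)).erase z).card ≤ N := by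
    refine (Finset.card_le_card ?_).trans (hN _ h3)
    intro p hp
    rw [Finset.mem_biUnion] at hp
    obtain ⟨c, hc, hp⟩ := hp
    rw [Finset.mem_erase, Finset.mem_filter] at hp
    rw [Finset.mem_filter]
    exact ⟨hp.2.1, hp.2.2.trans (sup_le_sup_left
      ((hmS c).mp (Finset.mem_filter.mp hc).1).2 _)⟩
  have h6 : (4 * Bd.card) * S.card ≤ S.card * S.card := by nlinarith
  have h7 := Nat.le_of_mul_le_mul_right h6 hU0
  omega

/-- **A long line.** All planes have at most `N` points, the line `u` has `s` points,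
`100 ≤ s`, `32 * N ≤ s ^ 2`, `5 * N ^ 2 ≤ s * n`, `1000 * N ≤ n`. -/
theorem crit4_longline {A : Finset L} (hA : ∀ a ∈ A, IsAtom a) (hr : rk (A.sup id) = 4)
    {u : L} (hu : rk u = 2) {N : ℕ} (hN : ∀ H, rk H = 3 → (A.filter (· ≤ H)).card ≤ N)
    (hU : 100 ≤ (A.filter (· ≤ u)).card) (hKN : 32 * N ≤ (A.filter (· ≤ u)).card ^ 2)
    (hK5 : 5 * N ^ 2 ≤ (A.filter (· ≤ u)).card * A.card) (h1000 : 1000 * N ≤ A.card) :
    Crit4 A := by
  classical
  have := Fintype.ofFinite L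
  set n := A.card with hn
  set U := (A.filter (· ≤ u)).card with hUd
  -- a point off `u`
  obtain ⟨y0, hy0, hy0u⟩ : ∃ y ∈ A, ¬ y ≤ u := by
    by_contra hcon
    push Not at hcon
    have h1 := rk_mono (Finset.sup_le hcon : A.sup id ≤ u)
    omega
  have hUN : U ≤ N := by
    refine (Finset.card_le_card ?_).trans (hN (u ⊔ y0) (by rw [rk_sup_atom (hA _ hy0) hy0u, hu]))
    intro x hx
    rw [Finset.mem_filter] at hx ⊢
    exact ⟨hx.1, hx.2.trans le_sup_left⟩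
  have hN3 : 3 ≤ N := by omega
  -- two exceptional points
  obtain ⟨x1, x2, hE⟩ : ∃ x1 x2 : L, ∀ x ∈ A, x ≠ x1 → x ≠ x2 → 2 * (TT A x).card + 1 < n := by
    by_contra hcon
    push Not at hcon
    obtain ⟨x, hx, -, -, hx4⟩ := hcon ⊥ ⊥
    obtain ⟨y, hy, hyx, -, hy4⟩ := hcon x x
    obtain ⟨z, hz, hzx, hzy, hz4⟩ := hcon x y
    exact three_bound hA hr hN h1000 hN3 hx hy hz hyx.symm hzx.symm hzy.symm hx4 hy4 hz4
  -- the plane
  obtain ⟨Q, hQ, huQ, hx1Q, y1, hy1, hy1Q, hy1u⟩ : ∃ Q : L, rk Q = 3 ∧ u ≤ Q ∧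
      (x1 ∈ A → x1 ≤ Q) ∧ ∃ y1 ∈ A, y1 ≤ Q ∧ ¬ y1 ≤ u := by
    by_cases h : x1 ∈ A ∧ ¬ x1 ≤ u
    · exact ⟨u ⊔ x1, by rw [rk_sup_atom (hA _ h.1) h.2, hu], le_sup_left, fun _ => le_sup_right,
        x1, h.1, le_sup_right, h.2⟩
    · refine ⟨u ⊔ y0, by rw [rk_sup_atom (hA _ hy0) hy0u, hu], le_sup_left, ?_,
        y0, hy0, le_sup_right, hy0u⟩
      intro hx1
      push Not at h
      exact (h hx1).trans le_sup_left
  obtain ⟨o, ho, hoQ, hox⟩ : ∃ o ∈ A, ¬ o ≤ Q ∧ (x2 ∈ A → ¬ x2 ≤ Q → o = x2) := by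
    by_cases h : x2 ∈ A ∧ ¬ x2 ≤ Q
    · exact ⟨x2, h.1, h.2, fun _ _ => rfl⟩
    · obtain ⟨o, ho, hoQ⟩ : ∃ o ∈ A, ¬ o ≤ Q := by
        by_contra hcon
        push Not at hcon
        have h1 := rk_mono (Finset.sup_le hcon : A.sup id ≤ Q)
        omega
      exact ⟨o, ho, hoQ, fun h1 h2 => absurd ⟨h1, h2⟩ h⟩
  -- two points of `u`
  obtain ⟨a, ha, e, he, hae⟩ := Finset.one_lt_card.mp
    (show 1 < (A.filter (· ≤ u)).card by omega)
  rw [Finset.mem_filter] at ha he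
  have hael := line_eq (hA a ha.1) (hA e he.1) hae ha.2 he.2 hu
  set Qs := A.filter (· ≤ Q) with hQs
  have hmQ : ∀ x, x ∈ Qs ↔ x ∈ A ∧ x ≤ Q := fun x => by rw [hQs, Finset.mem_filter]
  have hB4 : Crit4 (insert o (A.filter (· ≤ Q))) :=
    crit4_base hA hQ ho hoQ (crit3_plane hA ⟨a, ha.1, e, he.1, y1, hy1, ha.2.trans huQ,
      he.2.trans huQ, hy1Q, by rw [hael, rk_sup_atom (hA _ hy1) hy1u, hu]⟩ hQ _ hmQ)
  rw [← hQs] at hB4
  have hBm : ∀ a, a ∈ insert o Qs → a = o ∨ (a ∈ A ∧ a ≤ Q) := by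
    intro a ha
    rcases Finset.mem_insert.mp ha with h | h
    · exact Or.inl h
    · exact Or.inr ((hmQ a).mp h)
  have hnB : ∀ x, x ∈ A → x ∉ insert o Qs → ¬ x ≤ Q ∧ x ≠ o := by
    intro x hx h
    rw [Finset.mem_insert, hmQ] at h
    push Not at h
    exact ⟨h.2 hx, h.1⟩
  -- the vertices
  set V0 : Finset (L × L × L) := (A ×ˢ A ×ˢ A).filter (fun v => (¬ v.1 ≤ Q ∧ v.1 ≠ o) ∧
    v.2.1 ≤ u ∧ 8 * (A.filter (· ≤ v.1 ⊔ v.2.1)).card ≤ U + 8 ∧
    (v.2.2 ≠ v.1 ∧ 64 * (ee A (v.1 ⊔ v.2.2)) ^ 2 ≤ A.card) ∧ ¬ v.2.2 ≤ v.1 ⊔ u ∧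
    ¬ o ≤ v.1 ⊔ v.2.1 ⊔ v.2.2) with hV0
  have hmem : ∀ v, v ∈ V0 ↔ (v.1 ∈ A ∧ v.2.1 ∈ A ∧ v.2.2 ∈ A) ∧ (¬ v.1 ≤ Q ∧ v.1 ≠ o) ∧
      v.2.1 ≤ u ∧ 8 * (A.filter (· ≤ v.1 ⊔ v.2.1)).card ≤ U + 8 ∧
      (v.2.2 ≠ v.1 ∧ 64 * (ee A (v.1 ⊔ v.2.2)) ^ 2 ≤ A.card) ∧ ¬ v.2.2 ≤ v.1 ⊔ u ∧
      ¬ o ≤ v.1 ⊔ v.2.1 ⊔ v.2.2 := by
    intro v
    rw [hV0, Finset.mem_filter, Finset.mem_product, Finset.mem_product]
  have hzu : ∀ z, ¬ z ≤ Q → ¬ z ≤ u := fun z h h' => h (h'.trans huQ)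
  -- ranks
  have hrow : ∀ z ∈ A, ¬ z ≤ Q → ∀ c ∈ A, c ≤ u → rk (z ⊔ c) = 2 := by
    intro z hz hzQ c hc hcu
    exact rk_line (hA z hz) (hA c hc) (fun h => hzu z hzQ (h ▸ hcu))
  have hrk : ∀ v ∈ V0, rk (v.1 ⊔ v.2.1) = 2 ∧ rk (v.1 ⊔ v.2.2) = 2 ∧
      rk (v.1 ⊔ v.2.1 ⊔ v.2.2) = 3 := by
    intro v hv
    obtain ⟨⟨k1, k2, k3⟩, ⟨k4, k5⟩, k6, k7, ⟨k8, k9⟩, k10, k11⟩ := (hmem v).mp hv
    have h1 := hrow _ k1 k4 _ k2 k6
    refine ⟨h1, rk_line (hA _ k1) (hA _ k3) k8.symm, ?_⟩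
    rw [rk_sup_atom (hA _ k3) (fun h => k10 (h.trans (sup_le_sup_left k6 _))), h1]
  -- two points of `u` below something
  have two : ∀ c ∈ A, c ≤ u → ∀ c' ∈ A, c' ≤ u → c ≠ c' → ∀ p, c ≤ p → c' ≤ p → u ≤ p := by
    intro c hc hcu c' hc' hcu' hne p h1 h2
    rw [← line_eq (hA c hc) (hA c' hc') hne hcu hcu' hu]
    exact sup_le h1 h2
  -- a row is not a `d`-line
  have hmix : ∀ v ∈ V0, ∀ c ∈ A, c ≤ u → ¬ c ≤ v.1 ⊔ v.2.2 := by
    intro v hv c hc hcu hle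
    obtain ⟨h1, h2, h3⟩ := hrk v hv
    obtain ⟨⟨k1, k2, k3⟩, ⟨k4, k5⟩, k6, k7, ⟨k8, k9⟩, k10, k11⟩ := (hmem v).mp hv
    have h4 := line_eq (hA _ k1) (hA c hc) (fun h => hzu _ k4 (h ▸ hcu)) le_sup_left hle h2
    apply k10
    refine (le_sup_right : v.2.2 ≤ v.1 ⊔ v.2.2).trans ?_
    rw [← h4]
    exact sup_le_sup_left hcu _
  -- the frame and lines
  have hf2 : ∀ z ∈ A, ¬ z ≤ Q → ∀ q ∈ A, rk (z ⊔ q) = 2 → ¬ o ≤ z ⊔ q →
      ∀ a ∈ insert o Qs, ∀ e ∈ insert o Qs, a ≠ e → a ≤ z ⊔ q → e ≤ z ⊔ q → False := by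
    intro z hz hzQ q hq hl hoq a ha e he hae h1 h2
    rcases hBm a ha with rfl | ⟨ha1, ha2⟩
    · exact hoq h1
    rcases hBm e he with rfl | ⟨he1, he2⟩
    · exact hoq h2
    have h3 := line_eq (hA a ha1) (hA e he1) hae h1 h2 hl
    exact hzQ ((le_sup_left : z ≤ z ⊔ q).trans (h3 ▸ sup_le ha2 he2))
  -- the loads
  have hld_row : ∀ v ∈ V0, 8 * ldn V0 (v.1 ⊔ v.2.1) ≤ n * U := by
    intro v hv
    obtain ⟨h1, h2, h3⟩ := hrk v hv
    obtain ⟨⟨k1, k2, k3⟩, ⟨k4, k5⟩, k6, k7, ⟨k8, k9⟩, k10, k11⟩ := (hmem v).mp hv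
    have hug : ¬ u ≤ v.1 ⊔ v.2.1 := by
      intro h
      have h4 : u = v.1 ⊔ v.2.1 := eq_of_le_of_rk h (by rw [h1, hu])
      exact hzu _ k4 (h4 ▸ le_sup_left)
    have h4 : V0.filter (fun w => Uses w (v.1 ⊔ v.2.1)) ⊆
        ((A.filter (· ≤ v.1 ⊔ v.2.1)).erase v.2.1) ×ˢ ({v.2.1} : Finset L) ×ˢ A := by
      intro w hw
      rw [Finset.mem_filter] at hw
      obtain ⟨g1, g2, g3⟩ := hrk w hw.1
      obtain ⟨⟨l1, l2, l3⟩, ⟨l4, l5⟩, l6, l7, ⟨l8, l9⟩, l10, l11⟩ := (hmem w).mp hw.1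
      simp only [Finset.mem_product, Finset.mem_erase, Finset.mem_singleton, Finset.mem_filter]
      rcases hw.2 with h | h | h
      · refine ⟨⟨fun h5 => hzu _ l4 (h5 ▸ k6), l1, h ▸ le_sup_left⟩, ?_, l3⟩
        by_contra hne
        exact hug (two _ l2 l6 _ k2 k6 hne _ (h ▸ le_sup_right) le_sup_right)
      · exact (hmix w hw.1 v.2.1 k2 k6 (h ▸ le_sup_right)).elim
      · rw [h, g3] at h1
        omega
    have h5 := Finset.card_le_card h4
    rw [Finset.card_product, Finset.card_product, Finset.card_singleton, one_mul,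
      Finset.card_erase_of_mem (Finset.mem_filter.mpr ⟨k2, le_sup_right⟩)] at h5
    have h6 : ldn V0 (v.1 ⊔ v.2.1) = (V0.filter (fun w => Uses w (v.1 ⊔ v.2.1))).card := rfl
    rw [h6]
    have h7 : 8 * ((A.filter (· ≤ v.1 ⊔ v.2.1)).card - 1) ≤ U := by omega
    calc 8 * _ ≤ 8 * (((A.filter (· ≤ v.1 ⊔ v.2.1)).card - 1) * n) := Nat.mul_le_mul_left _ h5
      _ = (8 * ((A.filter (· ≤ v.1 ⊔ v.2.1)).card - 1)) * n := by ring
      _ ≤ U * n := Nat.mul_le_mul_right _ h7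
      _ = n * U := mul_comm _ _
  have hld_d : ∀ v ∈ V0, 100 * ldn V0 (v.1 ⊔ v.2.2) ≤ 2 * (n * U) := by
    intro v hv
    obtain ⟨h1, h2, h3⟩ := hrk v hv
    obtain ⟨⟨k1, k2, k3⟩, ⟨k4, k5⟩, k6, k7, ⟨k8, k9⟩, k10, k11⟩ := (hmem v).mp hv
    have h4 : V0.filter (fun w => Uses w (v.1 ⊔ v.2.2)) ⊆
        ((A.filter (· ≤ v.1 ⊔ v.2.2)).offDiag ×ˢ (A.filter (· ≤ u))).image
          (fun p => (p.1.1, p.2, p.1.2)) := by
      intro w hw
      rw [Finset.mem_filter] at hw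
      obtain ⟨g1, g2, g3⟩ := hrk w hw.1
      obtain ⟨⟨l1, l2, l3⟩, ⟨l4, l5⟩, l6, l7, ⟨l8, l9⟩, l10, l11⟩ := (hmem w).mp hw.1
      rw [Finset.mem_image]
      rcases hw.2 with h | h | h
      · exact (hmix v hv w.2.1 l2 l6 (h ▸ le_sup_right)).elim
      · refine ⟨((w.1, w.2.2), w.2.1), ?_, rfl⟩
        rw [Finset.mem_product, Finset.mem_offDiag, Finset.mem_filter, Finset.mem_filter,
          Finset.mem_filter]
        exact ⟨⟨⟨l1, h ▸ le_sup_left⟩, ⟨l3, h ▸ le_sup_right⟩, l8.symm⟩, l2, l6⟩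
      · rw [h, g3] at h2
        omega
    have h5 := (Finset.card_le_card h4).trans Finset.card_image_le
    rw [Finset.card_product, Finset.offDiag_card, ← hUd] at h5
    have h6 : ldn V0 (v.1 ⊔ v.2.2) = (V0.filter (fun w => Uses w (v.1 ⊔ v.2.2))).card := rfl
    rw [h6]
    set g := (A.filter (· ≤ v.1 ⊔ v.2.2)).card with hg
    have h7 : ee A (v.1 ⊔ v.2.2) = g - 1 := rfl
    rw [h7, ← hn] at k9
    have hg1 : 0 < g := Finset.card_pos.mpr ⟨v.1, Finset.mem_filter.mpr ⟨k1, le_sup_left⟩⟩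
    obtain ⟨f, hf⟩ : ∃ f, g = f + 1 := ⟨g - 1, by omega⟩
    rw [hf] at h5 k9
    have h8 : (f + 1) * (f + 1) - (f + 1) = f * f + f := by
      have : (f + 1) * (f + 1) = f * f + f + (f + 1) := by ring
      omega
    rw [h8] at h5
    have h9 : f + 1 - 1 = f := by omega
    rw [h9] at k9
    have h10 : 1000 * f ≤ n := by
      by_contra hcon
      push Not at hcon
      have hfU : 100000 ≤ n := by omega
      nlinarith
    have h11 : 100 * (f * f + f) ≤ 2 * n := by nlinarith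
    calc 100 * _ ≤ 100 * ((f * f + f) * U) := Nat.mul_le_mul_left _ h5
      _ = (100 * (f * f + f)) * U := by ring
      _ ≤ (2 * n) * U := Nat.mul_le_mul_right _ h11
      _ = 2 * (n * U) := by ring
  have hld_pl : ∀ v ∈ V0, ldn V0 (v.1 ⊔ v.2.1 ⊔ v.2.2) ≤ N * N := by
    intro v hv
    obtain ⟨h1, h2, h3⟩ := hrk v hv
    obtain ⟨⟨k1, k2, k3⟩, ⟨k4, k5⟩, k6, k7, ⟨k8, k9⟩, k10, k11⟩ := (hmem v).mp hv
    set H := v.1 ⊔ v.2.1 ⊔ v.2.2 with hH
    have huH : ¬ u ≤ H := by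
      intro h
      have hzH : v.1 ≤ H := le_sup_left.trans le_sup_left
      have h4 : rk (v.1 ⊔ u) = 3 := by
        rw [sup_comm, rk_sup_atom (hA _ k1) (hzu _ k4), hu]
      have h5 : v.1 ⊔ u = H := eq_of_le_of_rk (sup_le hzH h) (by rw [h3, h4])
      apply k10
      rw [h5]
      exact le_sup_right
    have h4 : V0.filter (fun w => Uses w H) ⊆
        ((A.filter (· ≤ H)) ×ˢ ({v.2.1} : Finset L) ×ˢ (A.filter (· ≤ H))) := by
      intro w hw
      rw [Finset.mem_filter] at hw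
      obtain ⟨g1, g2, g3⟩ := hrk w hw.1
      obtain ⟨⟨l1, l2, l3⟩, ⟨l4, l5⟩, l6, l7, ⟨l8, l9⟩, l10, l11⟩ := (hmem w).mp hw.1
      simp only [Finset.mem_product, Finset.mem_singleton, Finset.mem_filter]
      rcases hw.2 with h | h | h
      · rw [h, g1] at h3
        omega
      · rw [h, g2] at h3
        omega
      · refine ⟨⟨l1, ?_⟩, ?_, l3, ?_⟩
        · rw [h]
          exact le_sup_left.trans le_sup_left
        · by_contra hne
          refine huH (two _ l2 l6 _ k2 k6 hne _ ?_ (le_sup_right.trans le_sup_left))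
          rw [h]
          exact le_sup_right.trans le_sup_left
        · rw [h]
          exact le_sup_right
    have h5 := Finset.card_le_card h4
    rw [Finset.card_product, Finset.card_product, Finset.card_singleton, one_mul] at h5
    exact h5.trans (Nat.mul_le_mul (hN _ h3) (hN _ h3))
  have hn5 : 100000 ≤ n := by omega
  have hM0 : 0 < 360 * (n * U) / 1000 := by
    have h1 : 100000 * 100 ≤ n * U := Nat.mul_le_mul hn5 (by omega)
    omega
  refine crit4_of_count (B := insert o Qs) (V0 := V0) hM0 hA ?_ hB4 ?_ ?_ ?_ ?_ ?_ ?_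
  · intro a ha
    rcases hBm a ha with rfl | h
    · exact ho
    · exact h.1
  · intro v hv
    obtain ⟨h1, h2, h3⟩ := hrk v hv
    obtain ⟨⟨k1, k2, k3⟩, ⟨k4, k5⟩, -⟩ := (hmem v).mp hv
    refine ⟨k1, ?_, k2, k3, h3⟩
    intro h
    rcases hBm _ h with h | h
    · exact k5 h
    · exact k4 h.2
  · intro v hv
    obtain ⟨h1, h2, h3⟩ := hrk v hv
    obtain ⟨⟨k1, k2, k3⟩, ⟨k4, k5⟩, k6, k7, ⟨k8, k9⟩, k10, k11⟩ := (hmem v).mp hv
    exact hf2 v.1 k1 k4 v.2.1 k2 h1 (fun h => k11 (h.trans le_sup_left))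
  · intro v hv
    obtain ⟨h1, h2, h3⟩ := hrk v hv
    obtain ⟨⟨k1, k2, k3⟩, ⟨k4, k5⟩, k6, k7, ⟨k8, k9⟩, k10, k11⟩ := (hmem v).mp hv
    exact hf2 v.1 k1 k4 v.2.2 k3 h2 (fun h => k11 (h.trans
      (sup_le (le_sup_left.trans le_sup_left) le_sup_right)))
  · intro v hv a ha e he t ht h3 h4 h5 h6
    have hr3 := (hrk v hv).2.2
    obtain ⟨⟨k1, k2, k3⟩, ⟨k4, k5⟩, k6, k7, ⟨k8, k9⟩, k10, k11⟩ := (hmem v).mp hv
    rcases hBm a ha with rfl | ⟨ha1, ha2⟩
    · exact k11 h4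
    rcases hBm e he with rfl | ⟨he1, he2⟩
    · exact k11 h5
    rcases hBm t ht with rfl | ⟨ht1, ht2⟩
    · exact k11 h6
    have h7 : a ⊔ e ⊔ t = v.1 ⊔ v.2.1 ⊔ v.2.2 :=
      eq_of_le_of_rk (sup_le (sup_le h4 h5) h6) (by rw [h3, hr3])
    exact k4 ((le_sup_left.trans le_sup_left : v.1 ≤ v.1 ⊔ v.2.1 ⊔ v.2.2).trans
      (h7 ▸ sup_le (sup_le ha2 he2) ht2))
  · -- the count
    intro z hz hzB
    obtain ⟨hzQ, hzo⟩ := hnB z hz hzB
    have hzuu := hzu z hzQ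
    have hz1 := hA z hz
    have hoA := hA o ho
    have hzx1 : z ≠ x1 := by
      rintro rfl
      exact hzQ (hx1Q hz)
    have hzx2 : z ≠ x2 := by
      rintro rfl
      exact hzo (hox hz hzQ).symm
    have hTT := hE z hz hzx1 hzx2
    have hST := SS_TT (A := A) hz
    rw [← hn] at hST
    have hz3 : rk (z ⊔ u) = 3 := by
      rw [sup_comm, rk_sup_atom hz1 hzuu, hu]
    -- the points `d`
    set D := (SS A z).filter (fun d => ¬ d ≤ z ⊔ u ∧ ¬ o ≤ z ⊔ d) with hD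
    have hmD : ∀ d, d ∈ D ↔ (d ∈ A ∧ d ≠ z ∧ 64 * (ee A (z ⊔ d)) ^ 2 ≤ A.card) ∧
        ¬ d ≤ z ⊔ u ∧ ¬ o ≤ z ⊔ d := by
      intro d
      rw [hD, Finset.mem_filter, mem_SS]
    have hDo : 1000 * ((SS A z).filter (fun d => o ≤ z ⊔ d)).card ≤ n := by
      rcases Finset.eq_empty_or_nonempty ((SS A z).filter (fun d => o ≤ z ⊔ d)) with h | ⟨d0, h⟩
      · rw [h, Finset.card_empty]
        omega
      · rw [Finset.mem_filter, mem_SS] at h
        obtain ⟨⟨m1, m2, m3⟩, m4⟩ := h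
        have e0 := line_eq hz1 hoA hzo le_sup_left m4 (rk_line hz1 (hA _ m1) m2.symm)
        rw [← e0] at m3
        have h1 : (SS A z).filter (fun d => o ≤ z ⊔ d) ⊆ (A.filter (· ≤ z ⊔ o)).erase z := by
          intro d hd
          rw [Finset.mem_filter, mem_SS] at hd
          obtain ⟨⟨p1, p2, p3⟩, p4⟩ := hd
          rw [Finset.mem_erase, Finset.mem_filter]
          refine ⟨p2, p1, ?_⟩
          rw [line_eq hz1 hoA hzo le_sup_left p4 (rk_line hz1 (hA _ p1) p2.symm)]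
          exact le_sup_right
        have h2 := Finset.card_le_card h1
        rw [card_erase_line hz le_sup_left] at h2
        rw [← hn] at m3
        have h3 : 1000 * ee A (z ⊔ o) ≤ n := by
          by_contra hcon
          push Not at hcon
          nlinarith
        omega
    have hDc : 498 * n ≤ 1000 * D.card := by
      have h1 : SS A z ⊆ D ∪ ((A.filter (· ≤ z ⊔ u)) ∪ (SS A z).filter (fun d => o ≤ z ⊔ d)) := by
        intro d hd
        have hd' := mem_SS.mp hd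
        rw [Finset.mem_union, Finset.mem_union, hmD, Finset.mem_filter, Finset.mem_filter]
        by_cases c1 : d ≤ z ⊔ u
        · exact Or.inr (Or.inl ⟨hd'.1, c1⟩)
        · by_cases c2 : o ≤ z ⊔ d
          · exact Or.inr (Or.inr ⟨hd, c2⟩)
          · exact Or.inl ⟨hd', c1, c2⟩
      have h2 := Finset.card_le_card h1
      have h3 := Finset.card_union_le D
        ((A.filter (· ≤ z ⊔ u)) ∪ (SS A z).filter (fun d => o ≤ z ⊔ d))
      have h4 := Finset.card_union_le (A.filter (· ≤ z ⊔ u))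
        ((SS A z).filter (fun d => o ≤ z ⊔ d))
      have h5 := hN _ hz3
      omega
    -- the points `c`
    set C := (A.filter (· ≤ u)).filter (fun c => 8 * (A.filter (· ≤ z ⊔ c)).card ≤ U + 8) with hC
    have hCc : 3 * U ≤ 4 * C.card := card_rows hA hN hu hKN (by omega) hz hzuu
    have hmC : ∀ c, c ∈ C ↔ (c ∈ A ∧ c ≤ u) ∧ 8 * (A.filter (· ≤ z ⊔ c)).card ≤ U + 8 := by
      intro c
      rw [hC, Finset.mem_filter, Finset.mem_filter]
    set P := (D ×ˢ C).filter (fun p => ¬ o ≤ z ⊔ p.2 ⊔ p.1) with hP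
    have hPc : D.card * (C.card - 1) ≤ P.card := by
      have h0 : P.card = ∑ p ∈ D ×ˢ C, if ¬ o ≤ z ⊔ p.2 ⊔ p.1 then 1 else 0 :=
        Finset.card_filter _ _
      rw [h0, Finset.sum_product]
      have h1 : ∀ d ∈ D, C.card - 1 ≤ ∑ c ∈ C, if ¬ o ≤ z ⊔ c ⊔ d then 1 else 0 := by
        intro d hd
        obtain ⟨⟨m1, m2, m3⟩, m4, m5⟩ := (hmD d).mp hd
        rw [← Finset.card_filter]
        have h2 : (C.filter (fun c => o ≤ z ⊔ c ⊔ d)).card ≤ 1 := by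
          rw [Finset.card_le_one]
          intro c hc c' hc'
          rw [Finset.mem_filter, hmC] at hc hc'
          by_contra hne
          -- the plane through `z`, `d`, `o`
          have hzd := rk_line hz1 (hA d m1) m2.symm
          have hP3 : rk (z ⊔ d ⊔ o) = 3 := by rw [rk_sup_atom hoA m5, hzd]
          have hpl : ∀ c ∈ A, c ≤ u → o ≤ z ⊔ c ⊔ d → z ⊔ d ⊔ o = z ⊔ c ⊔ d := by
            intro c hc hcu hoc
            have hl := hrow z hz hzQ c hc hcu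
            have h3 : rk (z ⊔ c ⊔ d) = 3 := by
              rw [rk_sup_atom (hA d m1) (fun h => m4 (h.trans (sup_le_sup_left hcu _))), hl]
            exact eq_of_le_of_rk (sup_le (sup_le (le_sup_left.trans le_sup_left) le_sup_right) hoc)
              (by rw [h3, hP3])
          have e1 := hpl c hc.1.1.1 hc.1.1.2 hc.2
          have e2 := hpl c' hc'.1.1.1 hc'.1.1.2 hc'.2
          have h4 : u ≤ z ⊔ d ⊔ o := two c hc.1.1.1 hc.1.1.2 c' hc'.1.1.1 hc'.1.1.2 hne _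
            (by rw [e1]; exact le_sup_right.trans le_sup_left)
            (by rw [e2]; exact le_sup_right.trans le_sup_left)
          have h5 : z ⊔ u = z ⊔ d ⊔ o := eq_of_le_of_rk
            (sup_le (le_sup_left.trans le_sup_left) h4) (by rw [hP3, hz3])
          apply m4
          rw [h5]
          exact le_sup_right.trans le_sup_left
        have h4 := Finset.card_filter_add_card_filter_not (s := C) (fun c => o ≤ z ⊔ c ⊔ d)
        omega
      calc D.card * (C.card - 1) = ∑ _d ∈ D, (C.card - 1) := by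
            rw [Finset.sum_const, smul_eq_mul]
        _ ≤ _ := Finset.sum_le_sum h1
    have hM : 360 * (n * U) / 1000 ≤ P.card := by
      have h1 : 74 * U ≤ 100 * (C.card - 1) := by omega
      have h2 : (498 * n) * (74 * U) ≤ (1000 * D.card) * (100 * (C.card - 1)) :=
        Nat.mul_le_mul hDc h1
      have h3 : (498 * n) * (74 * U) = 36852 * (n * U) := by ring
      have h4 : (1000 * D.card) * (100 * (C.card - 1)) = 100000 * (D.card * (C.card - 1)) := by ring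
      omega
    refine hM.trans ?_
    refine Finset.card_le_card_of_injOn (fun p => (z, p.2, p.1)) ?_ ?_
    · intro p hp
      have hp' : p ∈ P := hp
      rw [hP, Finset.mem_filter, Finset.mem_product, hmD, hmC] at hp'
      obtain ⟨⟨⟨⟨p1, p2, p3⟩, p4, p5⟩, ⟨p6, p7⟩, p8⟩, p9⟩ := hp'
      have : (z, p.2, p.1) ∈ V0.filter (fun v => v.1 = z) := by
        rw [Finset.mem_filter, hmem]
        exact ⟨⟨⟨hz, p6, p1⟩, ⟨hzQ, hzo⟩, p7, p8, ⟨p2, p3⟩, p4, p9⟩, rfl⟩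
      rw [Finset.mem_coe]
      convert this
    · intro p _ p' _ h
      simp only [Prod.mk.injEq, true_and] at h
      exact Prod.ext h.2 h.1
  · intro v hv
    have h1 := hld_row v hv
    have h2 := hld_d v hv
    have h3 := hld_pl v hv
    have h5 : 5 * (N * N) ≤ n * U := by
      calc 5 * (N * N) = 5 * N ^ 2 := by ring
        _ ≤ U * n := hK5
        _ = n * U := mul_comm _ _
    omega

/-- The form with a parameter `K`. -/
theorem crit4_longlineK {A : Finset L} (hA : ∀ a ∈ A, IsAtom a) (hr : rk (A.sup id) = 4)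
    {u : L} (hu : rk u = 2) {N K : ℕ} (hN : ∀ H, rk H = 3 → (A.filter (· ≤ H)).card ≤ N)
    (hU : 100 * K ≤ (A.filter (· ≤ u)).card) (hKN : N ≤ K * (A.filter (· ≤ u)).card)
    (hK5 : 5 * (K * N) ≤ A.card) (h1000 : 1000 * N ≤ A.card) (hK1 : 1 ≤ K) : Crit4 A := by
  set U := (A.filter (· ≤ u)).card with hUd
  refine crit4_longline hA hr hu hN (by omega) ?_ ?_ h1000
  · rw [← hUd]
    calc 32 * N ≤ 100 * (K * U) := by omega
      _ = (100 * K) * U := by ring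
      _ ≤ U * U := Nat.mul_le_mul_right _ hU
      _ = U ^ 2 := by ring
  · rw [← hUd]
    calc 5 * N ^ 2 = 5 * (N * N) := by ring
      _ ≤ 5 * (N * (K * U)) := Nat.mul_le_mul_left _ (Nat.mul_le_mul_left _ hKN)
      _ = U * (5 * (K * N)) := by ring
      _ ≤ U * A.card := Nat.mul_le_mul_left _ hK5

end longline

end Pool.Agent.Helper80.LP
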