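import Pool.Agent.Helper80.LP.Pairs

/-!
# Rank four data of a set with a large plane and short lines
-/

set_option autoImplicit false
set_option linter.unusedSectionVars false

namespace Pool.Agent.Helper80.LP

open Pool.Agent.Helper28.BPack Pool.Agent.Helper61.Motz Pool.Agent.Helper63.HM

variable {L : Type} [Lattice L] [BoundedOrder L] [Finite L] [IsUpperModularLattice L]

section plane

variable [DecidableEq L] [DecidableRel (α := L) (· ≤ ·)]

/-- Two points of `Q` and a point off `Q` span a plane. -/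
theorem rk_off {Q z q q' : L} (hz : IsAtom z) (hq : IsAtom q) (hq' : IsAtom q')
    (hzQ : ¬ z ≤ Q) (hqQ : q ≤ Q) (hqQ' : q' ≤ Q) (hne : q ≠ q') : rk (z ⊔ q ⊔ q') = 3 := by
  have h1 := rk_line hq hq' hne
  have h2 : ¬ z ≤ q ⊔ q' := fun h => hzQ (h.trans (sup_le hqQ hqQ'))
  have h3 := rk_sup_atom hz h2
  have h4 : z ⊔ q ⊔ q' = q ⊔ q' ⊔ z := by rw [sup_assoc, sup_comm]
  rw [h4, h3, h1]

/-- Three points of two different planes are collinear. -/
theorem le_line_of_planes {Q H a e x : L} (hQ : rk Q = 3) (hH : rk H = 3) (hne : H ≠ Q)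
    (ha : IsAtom a) (he : IsAtom e) (hx : IsAtom x) (hae : a ≠ e) (haQ : a ≤ Q) (heQ : e ≤ Q)
    (hxQ : x ≤ Q) (haH : a ≤ H) (heH : e ≤ H) (hxH : x ≤ H) : x ≤ a ⊔ e := by
  by_contra h
  have h1 : rk (a ⊔ e ⊔ x) = 3 := by rw [rk_sup_atom hx h, rk_line ha he hae]
  have h2 : a ⊔ e ⊔ x = Q := eq_of_le_of_rk (sup_le (sup_le haQ heQ) hxQ) (by rw [h1, hQ])
  have h3 : a ⊔ e ⊔ x = H := eq_of_le_of_rk (sup_le (sup_le haH heH) hxH) (by rw [h1, hH])
  exact hne (h3.symm.trans h2)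

/-- **A large plane.** `sQ` bounds the lines in `Q`, `s'` the lines off `Q`. -/
theorem crit4_plane_gen {A : Finset L} (hA : ∀ a ∈ A, IsAtom a) {Q o : L} (hQ : rk Q = 3)
    (ho : o ∈ A) (hoQ : ¬ o ≤ Q)
    (hQ3 : ∃ a ∈ A, ∃ e ∈ A, ∃ t ∈ A, a ≤ Q ∧ e ≤ Q ∧ t ≤ Q ∧ rk (a ⊔ e ⊔ t) = 3)
    (sQ s' : ℕ) (hsQ : ∀ g, rk g = 2 → g ≤ Q → (A.filter (· ≤ g)).card ≤ sQ)
    (hs' : ∀ g, rk g = 2 → ¬ g ≤ Q → (A.filter (· ≤ g)).card ≤ s')
    (hM : 0 < ((A.filter (· ≤ Q)).card - 1) * ((A.filter (· ≤ Q)).card - sQ))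
    (hH : ∀ H, rk H = 3 → H ≠ Q → ¬ o ≤ H →
      (A.filter (fun x => x ≤ H ∧ ¬ x ≤ Q)).card *
        ((A.filter (fun x => x ≤ H ∧ x ≤ Q)).card * ((A.filter (fun x => x ≤ H ∧ x ≤ Q)).card - 1))
        + 4 * ((s' - 1) * ((A.filter (· ≤ Q)).card - 1)) ≤
      ((A.filter (· ≤ Q)).card - 1) * ((A.filter (· ≤ Q)).card - sQ)) : Crit4 A := by
  classical
  set Qs := A.filter (· ≤ Q) with hQs
  set N := Qs.card with hN
  have hmQ : ∀ x, x ∈ Qs ↔ x ∈ A ∧ x ≤ Q := fun x => by rw [hQs, Finset.mem_filter]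
  have hB4 : Crit4 (insert o (A.filter (· ≤ Q))) :=
    crit4_base hA hQ ho hoQ (crit3_plane hA hQ3 hQ _ hmQ)
  rw [← hQs] at hB4
  have hBm : ∀ a, a ∈ insert o Qs → a = o ∨ (a ∈ A ∧ a ≤ Q) := by
    intro a ha
    rcases Finset.mem_insert.mp ha with h | h
    · exact Or.inl h
    · exact Or.inr ((hmQ a).mp h)
  have hnB : ∀ x, x ∈ A → x ∉ insert o Qs → ¬ x ≤ Q ∧ x ≠ o := by
    intro x hx h
    rw [Finset.mem_insert, hmQ] at h
    push Not at h
    exact ⟨h.2 hx, h.1⟩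
  set V0 : Finset (L × L × L) := (A ×ˢ Qs ×ˢ Qs).filter (fun v => (¬ v.1 ≤ Q ∧ v.1 ≠ o) ∧
    v.2.1 ≠ v.2.2 ∧ ¬ o ≤ v.1 ⊔ v.2.1 ⊔ v.2.2) with hV0
  have hmem : ∀ v, v ∈ V0 ↔ (v.1 ∈ A ∧ v.2.1 ∈ Qs ∧ v.2.2 ∈ Qs) ∧ (¬ v.1 ≤ Q ∧ v.1 ≠ o) ∧
      v.2.1 ≠ v.2.2 ∧ ¬ o ≤ v.1 ⊔ v.2.1 ⊔ v.2.2 := by
    intro v
    rw [hV0, Finset.mem_filter, Finset.mem_product, Finset.mem_product]
  have hrk : ∀ v ∈ V0, rk (v.1 ⊔ v.2.1 ⊔ v.2.2) = 3 := by
    intro v hv
    obtain ⟨⟨k1, k2, k3⟩, ⟨k4, -⟩, k6, -⟩ := (hmem v).mp hv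
    rw [hmQ] at k2 k3
    exact rk_off (hA _ k1) (hA _ k2.1) (hA _ k3.1) k4 k2.2 k3.2 k6
  have hne : ∀ z ∈ A, ¬ z ≤ Q → ∀ q, q ≤ Q → z ≠ q := fun z _ hzQ q hq h => hzQ (h ▸ hq)
  have hl : ∀ z ∈ A, ¬ z ≤ Q → ∀ q ∈ Qs, rk (z ⊔ q) = 2 := by
    intro z hz hzQ q hq
    rw [hmQ] at hq
    exact rk_line (hA z hz) (hA q hq.1) (hne z hz hzQ q hq.2)
  -- the frame
  have hf2 : ∀ z ∈ A, ¬ z ≤ Q → ∀ q ∈ Qs, ¬ o ≤ z ⊔ q → ∀ a ∈ insert o Qs, ∀ e ∈ insert o Qs,
      a ≠ e → a ≤ z ⊔ q → e ≤ z ⊔ q → False := by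
    intro z hz hzQ q hq hoq a ha e he hae h1 h2
    rcases hBm a ha with rfl | ⟨ha1, ha2⟩
    · exact hoq h1
    rcases hBm e he with rfl | ⟨he1, he2⟩
    · exact hoq h2
    have h3 := line_eq (hA a ha1) (hA e he1) hae h1 h2 (hl z hz hzQ q hq)
    exact hzQ ((le_sup_left : z ≤ z ⊔ q).trans (h3 ▸ sup_le ha2 he2))
  -- loads of planes
  have hld3 : ∀ v ∈ V0, ldn V0 (v.1 ⊔ v.2.1 ⊔ v.2.2) + 4 * ((s' - 1) * (N - 1)) ≤
      (N - 1) * (N - sQ) := by
    intro v hv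
    have hr3 := hrk v hv
    obtain ⟨⟨k1, k2, k3⟩, ⟨k4, k5⟩, k6, k7⟩ := (hmem v).mp hv
    set H := v.1 ⊔ v.2.1 ⊔ v.2.2 with hHd
    have hHQ : H ≠ Q := by
      intro h
      apply k4
      rw [← h]
      exact le_sup_left.trans le_sup_left
    have h1 : V0.filter (fun u => Uses u H) ⊆
        A.filter (fun x => x ≤ H ∧ ¬ x ≤ Q) ×ˢ (A.filter (fun x => x ≤ H ∧ x ≤ Q)).offDiag := by
      intro u hu
      rw [Finset.mem_filter] at hu
      obtain ⟨⟨l1, l2, l3⟩, ⟨l4, l5⟩, l6, l7⟩ := (hmem u).mp hu.1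
      have hH' : H = u.1 ⊔ u.2.1 ⊔ u.2.2 := by
        rcases hu.2 with h | h | h
        · have h8 := hl u.1 l1 l4 _ l2
          rw [← h, hr3] at h8
          omega
        · have h8 := hl u.1 l1 l4 _ l3
          rw [← h, hr3] at h8
          omega
        · exact h
      rw [hmQ] at l2 l3
      rw [Finset.mem_product, Finset.mem_offDiag, Finset.mem_filter, Finset.mem_filter,
        Finset.mem_filter]
      refine ⟨⟨l1, ?_, l4⟩, ⟨l2.1, ?_, l2.2⟩, ⟨l3.1, ?_, l3.2⟩, l6⟩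
      · rw [hH']
        exact le_sup_left.trans le_sup_left
      · rw [hH']
        exact le_sup_right.trans le_sup_left
      · rw [hH']
        exact le_sup_right
    have h2 := Finset.card_le_card h1
    rw [Finset.card_product, Finset.offDiag_card] at h2
    have h3 := hH H hr3 hHQ k7
    have h4 : ∀ n : ℕ, n * n - n = n * (n - 1) := fun n => by
      rw [Nat.mul_sub, mul_one]
    rw [h4] at h2
    have h5 : ldn V0 H = (V0.filter (fun u => Uses u H)).card := rfl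
    omega
  -- loads of lines
  have hld2 : ∀ z ∈ A, ¬ z ≤ Q → ∀ q ∈ Qs, ldn V0 (z ⊔ q) ≤ 2 * ((s' - 1) * (N - 1)) := by
    intro z hz hzQ q hq
    have hlz := hl z hz hzQ q hq
    have hqA := (hmQ q).mp hq
    have hgQ : ¬ z ⊔ q ≤ Q := fun h => hzQ (le_sup_left.trans h)
    -- the only point of `Q` on the line
    have honly : ∀ x ∈ Qs, x ≤ z ⊔ q → x = q := by
      intro x hx hxl
      by_contra hxq
      have hxA := (hmQ x).mp hx
      have h3 := line_eq (hA x hxA.1) (hA q hqA.1) hxq hxl le_sup_right hlz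
      exact hgQ (h3 ▸ sup_le hxA.2 hqA.2)
    have h1 : V0.filter (fun u => Uses u (z ⊔ q)) ⊆
        (((A.filter (· ≤ z ⊔ q)).erase q) ×ˢ ({q} : Finset L) ×ˢ (Qs.erase q)) ∪
        (((A.filter (· ≤ z ⊔ q)).erase q) ×ˢ (Qs.erase q) ×ˢ ({q} : Finset L)) := by
      intro u hu
      rw [Finset.mem_filter] at hu
      obtain ⟨⟨l1, l2, l3⟩, ⟨l4, l5⟩, l6, l7⟩ := (hmem u).mp hu.1
      have huq : u.1 ≠ q := hne u.1 l1 l4 q hqA.2
      rw [Finset.mem_union]
      simp only [Finset.mem_product, Finset.mem_erase, Finset.mem_singleton, Finset.mem_filter]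
      rcases hu.2 with h | h | h
      · have h8 : u.2.1 = q := honly _ l2 (h ▸ le_sup_right)
        left
        refine ⟨⟨huq, l1, h ▸ le_sup_left⟩, h8, ?_, l3⟩
        rw [← h8]
        exact l6.symm
      · have h8 : u.2.2 = q := honly _ l3 (h ▸ le_sup_right)
        right
        refine ⟨⟨huq, l1, h ▸ le_sup_left⟩, ⟨?_, l2⟩, h8⟩
        rw [← h8]
        exact l6
      · have h8 := hrk u hu.1
        rw [← h, hlz] at h8
        omega
    have h2 := Finset.card_le_card h1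
    have h3 := Finset.card_union_le
      (((A.filter (· ≤ z ⊔ q)).erase q) ×ˢ ({q} : Finset L) ×ˢ (Qs.erase q))
      (((A.filter (· ≤ z ⊔ q)).erase q) ×ˢ (Qs.erase q) ×ˢ ({q} : Finset L))
    simp only [Finset.card_product, Finset.card_singleton, one_mul, mul_one] at h3
    have h4 : ((A.filter (· ≤ z ⊔ q)).erase q).card ≤ s' - 1 := by
      rw [Finset.card_erase_of_mem (Finset.mem_filter.mpr ⟨hqA.1, le_sup_right⟩)]
      have := hs' _ hlz hgQ
      omega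
    have h5 : (Qs.erase q).card = N - 1 := by
      rw [Finset.card_erase_of_mem hq]
    rw [h5] at h3
    have h6 : ((A.filter (· ≤ z ⊔ q)).erase q).card * (N - 1) ≤ (s' - 1) * (N - 1) :=
      Nat.mul_le_mul_right _ h4
    have h7 : ldn V0 (z ⊔ q) = (V0.filter (fun u => Uses u (z ⊔ q))).card := rfl
    omega
  -- `sQ` is positive
  have hsQ1 : 1 ≤ sQ := by
    obtain ⟨a, ha, e, he, t, ht, ha', he', ht', h3⟩ := hQ3
    obtain ⟨h1, -, -⟩ := ne_of_rk3 (hA a ha) (hA e he) (hA t ht) h3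
    have h2 := hsQ _ (rk_line (hA a ha) (hA e he) h1) (sup_le ha' he')
    have h4 : a ∈ A.filter (· ≤ a ⊔ e) := Finset.mem_filter.mpr ⟨ha, le_sup_left⟩
    have h5 := Finset.card_pos.mpr ⟨a, h4⟩
    omega
  refine crit4_of_count (B := insert o Qs) (V0 := V0) hM hA ?_ hB4 ?_ ?_ ?_ ?_ ?_ ?_
  · intro a ha
    rcases hBm a ha with rfl | h
    · exact ho
    · exact h.1
  · intro v hv
    have hr3 := hrk v hv
    obtain ⟨⟨k1, k2, k3⟩, ⟨k4, k5⟩, k6, k7⟩ := (hmem v).mp hv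
    rw [hmQ] at k2 k3
    refine ⟨k1, ?_, k2.1, k3.1, hr3⟩
    intro h
    rcases hBm _ h with h | h
    · exact k5 h
    · exact k4 h.2
  · intro v hv
    obtain ⟨⟨k1, k2, k3⟩, ⟨k4, k5⟩, k6, k7⟩ := (hmem v).mp hv
    exact hf2 v.1 k1 k4 v.2.1 k2 (fun h => k7 (h.trans le_sup_left))
  · intro v hv
    obtain ⟨⟨k1, k2, k3⟩, ⟨k4, k5⟩, k6, k7⟩ := (hmem v).mp hv
    exact hf2 v.1 k1 k4 v.2.2 k3 (fun h => k7 (h.trans
      (sup_le (le_sup_left.trans le_sup_left) le_sup_right)))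
  · intro v hv a ha e he t ht h3 h4 h5 h6
    have hr3 := hrk v hv
    obtain ⟨⟨k1, k2, k3⟩, ⟨k4, k5⟩, k6, k7⟩ := (hmem v).mp hv
    rcases hBm a ha with rfl | ⟨ha1, ha2⟩
    · exact k7 h4
    rcases hBm e he with rfl | ⟨he1, he2⟩
    · exact k7 h5
    rcases hBm t ht with rfl | ⟨ht1, ht2⟩
    · exact k7 h6
    have h7 : a ⊔ e ⊔ t = v.1 ⊔ v.2.1 ⊔ v.2.2 :=
      eq_of_le_of_rk (sup_le (sup_le h4 h5) h6) (by rw [h3, hr3])
    exact k4 ((le_sup_left.trans le_sup_left : v.1 ≤ v.1 ⊔ v.2.1 ⊔ v.2.2).trans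
      (h7 ▸ sup_le (sup_le ha2 he2) ht2))
  · -- the count
    intro z hz hzB
    obtain ⟨hzQ, hzo⟩ := hnB z hz hzB
    have hz1 := hA z hz
    have hoA := hA o ho
    set P := (Qs ×ˢ Qs).filter (fun p => p.1 ≠ p.2 ∧ ¬ o ≤ z ⊔ p.1 ⊔ p.2) with hP
    have hPc : (N - 1) * (N - sQ) ≤ P.card := by
      rw [hP, Finset.card_filter, Finset.sum_product]
      have h1 : ∀ q ∈ Qs.filter (fun q => ¬ o ≤ z ⊔ q), N - sQ ≤
          ∑ q' ∈ Qs, if (q ≠ q' ∧ ¬ o ≤ z ⊔ q ⊔ q') then 1 else 0 := by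
        intro q hq
        rw [Finset.mem_filter] at hq
        obtain ⟨hqQs, hoq⟩ := hq
        have hqA := (hmQ q).mp hqQs
        rw [← Finset.card_filter]
        have hbad : (Qs.filter (fun q' => ¬ (q ≠ q' ∧ ¬ o ≤ z ⊔ q ⊔ q'))).card ≤ sQ := by
          by_cases hex : ∃ q1 ∈ Qs, q1 ≠ q ∧ o ≤ z ⊔ q ⊔ q1
          · obtain ⟨q1, hq1, hq1q, ho1⟩ := hex
            have hq1A := (hmQ q1).mp hq1
            have hH3 := rk_off hz1 (hA q hqA.1) (hA q1 hq1A.1) hzQ hqA.2 hq1A.2 hq1q.symm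
            have hzqo : rk (z ⊔ q ⊔ o) = 3 := by
              rw [rk_sup_atom hoA hoq, hl z hz hzQ q hqQs]
            have he1 : z ⊔ q ⊔ o = z ⊔ q ⊔ q1 := eq_of_le_of_rk
              (sup_le le_sup_left ho1) (by rw [hzqo, hH3])
            refine (Finset.card_le_card ?_).trans
              (hsQ (q ⊔ q1) (rk_line (hA q hqA.1) (hA q1 hq1A.1) hq1q.symm)
                (sup_le hqA.2 hq1A.2))
            intro x hx
            rw [Finset.mem_filter] at hx ⊢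
            have hxA := (hmQ x).mp hx.1
            refine ⟨hxA.1, ?_⟩
            by_cases hxq : q = x
            · rw [← hxq]
              exact le_sup_left
            have hox : o ≤ z ⊔ q ⊔ x := by
              by_contra h
              exact hx.2 ⟨hxq, h⟩
            have hHx := rk_off hz1 (hA q hqA.1) (hA x hxA.1) hzQ hqA.2 hxA.2 hxq
            have he2 : z ⊔ q ⊔ o = z ⊔ q ⊔ x := eq_of_le_of_rk
              (sup_le le_sup_left hox) (by rw [hzqo, hHx])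
            refine le_line_of_planes (H := z ⊔ q ⊔ o) hQ hzqo ?_ (hA q hqA.1) (hA q1 hq1A.1)
              (hA x hxA.1) hq1q.symm hqA.2 hq1A.2 hxA.2 (le_sup_right.trans le_sup_left) ?_ ?_
            · intro h
              apply hzQ
              rw [← h]
              exact le_sup_left.trans le_sup_left
            · rw [he1]
              exact le_sup_right
            · rw [he2]
              exact le_sup_right
          · push Not at hex
            have h2 : Qs.filter (fun q' => ¬ (q ≠ q' ∧ ¬ o ≤ z ⊔ q ⊔ q')) ⊆ {q} := by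
              intro x hx
              rw [Finset.mem_filter] at hx
              rw [Finset.mem_singleton]
              by_contra hxq
              exact hx.2 ⟨fun h => hxq h.symm, hex x hx.1 hxq⟩
            have h3 := Finset.card_le_card h2
            rw [Finset.card_singleton] at h3
            omega
        have h4 := Finset.card_filter_add_card_filter_not (s := Qs)
          (fun q' => q ≠ q' ∧ ¬ o ≤ z ⊔ q ⊔ q')
        omega
      have h2 : N - 1 ≤ (Qs.filter (fun q => ¬ o ≤ z ⊔ q)).card := by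
        have h3 : (Qs.filter (fun q => o ≤ z ⊔ q)).card ≤ 1 := by
          rw [Finset.card_le_one]
          intro a ha e he
          rw [Finset.mem_filter] at ha he
          by_contra hae
          have haA := (hmQ a).mp ha.1
          have heA := (hmQ e).mp he.1
          have e1 := line_eq hz1 hoA hzo le_sup_left ha.2 (hl z hz hzQ a ha.1)
          have e2 := line_eq hz1 hoA hzo le_sup_left he.2 (hl z hz hzQ e he.1)
          have e3 := line_eq (hA a haA.1) (hA e heA.1) hae (w := z ⊔ o)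
            (e1 ▸ le_sup_right) (e2 ▸ le_sup_right) (rk_line hz1 hoA hzo)
          exact hzQ ((le_sup_left : z ≤ z ⊔ o).trans (e3 ▸ sup_le haA.2 heA.2))
        have h4 := Finset.card_filter_add_card_filter_not (s := Qs) (fun q => o ≤ z ⊔ q)
        omega
      calc (N - 1) * (N - sQ) ≤ (Qs.filter (fun q => ¬ o ≤ z ⊔ q)).card * (N - sQ) :=
            Nat.mul_le_mul_right _ h2
        _ = ∑ _q ∈ Qs.filter (fun q => ¬ o ≤ z ⊔ q), (N - sQ) := by
            rw [Finset.sum_const, smul_eq_mul]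
        _ ≤ ∑ q ∈ Qs.filter (fun q => ¬ o ≤ z ⊔ q),
            ∑ q' ∈ Qs, (if (q ≠ q' ∧ ¬ o ≤ z ⊔ q ⊔ q') then 1 else 0) := Finset.sum_le_sum h1
        _ ≤ ∑ q ∈ Qs, ∑ q' ∈ Qs, (if (q ≠ q' ∧ ¬ o ≤ z ⊔ q ⊔ q') then 1 else 0) :=
            Finset.sum_le_sum_of_subset (Finset.filter_subset _ _)
    refine hPc.trans ?_
    refine Finset.card_le_card_of_injOn (fun p => (z, p)) ?_ ?_
    · intro p hp
      have hp' : p ∈ P := hp
      rw [hP, Finset.mem_filter, Finset.mem_product] at hp'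
      obtain ⟨⟨p1, p2⟩, p3, p4⟩ := hp'
      have : (z, p) ∈ V0.filter (fun v => v.1 = z) := by
        rw [Finset.mem_filter, hmem]
        exact ⟨⟨⟨hz, p1, p2⟩, ⟨hzQ, hzo⟩, p3, p4⟩, rfl⟩
      rw [Finset.mem_coe]
      convert this
    · intro p _ p' _ h
      exact (Prod.mk.inj h).2
  · intro v hv
    obtain ⟨⟨k1, k2, k3⟩, ⟨k4, k5⟩, k6, k7⟩ := (hmem v).mp hv
    have h1 := hld3 v hv
    have h2 := hld2 v.1 k1 k4 v.2.1 k2
    have h3 := hld2 v.1 k1 k4 v.2.2 k3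
    omega

/-- The arithmetic of the large plane. -/
theorem arith_plane {N s m h : ℕ} (hs : 1 ≤ s) (hN : s ^ 2 + 3 * s + 1 ≤ N) (hmh : m + h ≤ N)
    (hh : h ≤ s) : m * (h * (h - 1)) + 4 * ((s - 1) * (N - 1)) ≤ (N - 1) * (N - s) := by
  obtain ⟨a, rfl⟩ := Nat.exists_eq_add_of_le hs
  obtain ⟨k, rfl⟩ := Nat.exists_eq_add_of_le hN
  have e1 : (1 + a) ^ 2 + 3 * (1 + a) + 1 + k - 1 = a ^ 2 + 5 * a + 4 + k := by
    have : (1 + a) ^ 2 = a ^ 2 + 2 * a + 1 := by ring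
    omega
  have e2 : (1 + a) ^ 2 + 3 * (1 + a) + 1 + k - (1 + a) = a ^ 2 + 4 * a + 4 + k := by
    have : (1 + a) ^ 2 = a ^ 2 + 2 * a + 1 := by ring
    omega
  have e3 : 1 + a - 1 = a := by omega
  rw [e1, e2, e3]
  -- the load of the plane
  have h1 : m * (h * (h - 1)) ≤ (a ^ 2 + 4 * a + 4 + k) * ((1 + a) * a) := by
    rcases Nat.eq_zero_or_pos h with h0 | h0
    · rw [h0, zero_mul, mul_zero]
      exact Nat.zero_le _
    · obtain ⟨j, rfl⟩ := Nat.exists_eq_add_of_le h0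
      obtain ⟨d, hd⟩ := Nat.exists_eq_add_of_le hh
      have e4 : (0 : ℕ).succ + j - 1 = j := by omega
      have e5 : a = j + d := by omega
      have e6 : m ≤ (a ^ 2 + 4 * a + 4 + k) + d := by
        have : (1 + a) ^ 2 = a ^ 2 + 2 * a + 1 := by ring
        omega
      rw [e4]
      refine (Nat.mul_le_mul_right _ e6).trans ?_
      rw [e5]
      have e7 : (0 : ℕ).succ + j = j + 1 := by omega
      rw [e7]
      have e8 : ((j + d) ^ 2 + 4 * (j + d) + 4 + k) * ((1 + (j + d)) * (j + d)) =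
          ((j + d) ^ 2 + 4 * (j + d) + 4 + k + d) * ((j + 1) * j) +
          d * (((j + d) ^ 2 + 4 * (j + d) + 4 + k) * (2 * j + 1 + d) - (j + 1) * j) := by
        have e9 : (j + 1) * j ≤ ((j + d) ^ 2 + 4 * (j + d) + 4 + k) * (2 * j + 1 + d) := by
          nlinarith [Nat.zero_le j, Nat.zero_le d, Nat.zero_le k]
        zify [e9]
        ring
      rw [e8]
      exact Nat.le_add_right _ _
  have h2 : (a ^ 2 + 5 * a + 4 + k) * (a ^ 2 + 4 * a + 4 + k) =
      (a ^ 2 + 4 * a + 4 + k) * ((1 + a) * a) + 4 * (a * (a ^ 2 + 5 * a + 4 + k)) +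
      (16 * (1 + a) + k * (a ^ 2 + 4 * a + 8) + k ^ 2) := by
    ring
  omega

/-- **A large plane and short lines.** -/
theorem crit4_bigplane {A : Finset L} (hA : ∀ a ∈ A, IsAtom a) (hr : rk (A.sup id) = 4) (s : ℕ)
    (hs : ∀ g, rk g = 2 → (A.filter (· ≤ g)).card ≤ s) (Q : L) (hQ : rk Q = 3)
    (hN : s ^ 2 + 3 * s + 1 ≤ (A.filter (· ≤ Q)).card) : Crit4 A := by
  classical
  have := Fintype.ofFinite L
  -- a largest plane
  obtain ⟨Q', hQ', hmax⟩ := Finset.exists_max_image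
    ((Finset.univ : Finset L).filter (fun x => rk x = 3)) (fun x => (A.filter (· ≤ x)).card)
    ⟨Q, Finset.mem_filter.mpr ⟨Finset.mem_univ _, hQ⟩⟩
  rw [Finset.mem_filter] at hQ'
  have hQ3 := hQ'.2
  have hN' : s ^ 2 + 3 * s + 1 ≤ (A.filter (· ≤ Q')).card :=
    hN.trans (hmax Q (Finset.mem_filter.mpr ⟨Finset.mem_univ _, hQ⟩))
  -- three points of it
  obtain ⟨a, ha, e, he, hae⟩ := Finset.one_lt_card.mp
    (show 1 < (A.filter (· ≤ Q')).card by
      rcases Nat.eq_zero_or_pos s with h | h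
      · -- then no line has a point: any two points give a contradiction
        have h1 := rk_mono (show A.sup id ≤ A.sup id from le_rfl)
        exfalso
        obtain ⟨B, hBA, hB1, hB2⟩ := exists_basis (⊥ : L) A hA
        rw [bot_sup_eq, bot_sup_eq] at hB1
        rw [bot_sup_eq, hr, rk_bot] at hB2
        obtain ⟨x, hx, y, hy, hxy⟩ := Finset.one_lt_card.mp (show 1 < B.card by omega)
        have h2 := hs _ (rk_line (hA x (hBA hx)) (hA y (hBA hy)) hxy)
        have h3 : x ∈ A.filter (· ≤ x ⊔ y) := Finset.mem_filter.mpr ⟨hBA hx, le_sup_left⟩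
        have h4 := Finset.card_pos.mpr ⟨x, h3⟩
        omega
      · omega)
  rw [Finset.mem_filter] at ha he
  have hlae := rk_line (hA a ha.1) (hA e he.1) hae
  have hs2 : 2 ≤ s := by
    refine le_trans ?_ (hs _ hlae)
    rw [← Finset.card_pair hae]
    apply Finset.card_le_card
    intro x hx
    rw [Finset.mem_insert, Finset.mem_singleton] at hx
    rw [Finset.mem_filter]
    rcases hx with rfl | rfl
    exacts [⟨ha.1, le_sup_left⟩, ⟨he.1, le_sup_right⟩]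
  obtain ⟨t, ht, htl⟩ : ∃ t ∈ A.filter (· ≤ Q'), ¬ t ≤ a ⊔ e := by
    by_contra hcon
    push Not at hcon
    have h1 : A.filter (· ≤ Q') ⊆ A.filter (· ≤ a ⊔ e) := fun x hx =>
      Finset.mem_filter.mpr ⟨(Finset.mem_filter.mp hx).1, hcon x hx⟩
    have h2 := Finset.card_le_card h1
    have h3 := hs _ hlae
    nlinarith [Nat.zero_le s]
  rw [Finset.mem_filter] at ht
  -- a point off the plane
  obtain ⟨o, ho, hoQ⟩ : ∃ o ∈ A, ¬ o ≤ Q' := by
    by_contra hcon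
    push Not at hcon
    have h1 : A.sup id ≤ Q' := Finset.sup_le hcon
    have h2 := rk_mono h1
    omega
  refine crit4_plane_gen hA hQ3 ho hoQ
    ⟨a, ha.1, e, he.1, t, ht.1, ha.2, he.2, ht.2, by
      rw [rk_sup_atom (hA t ht.1) htl, hlae]⟩ s s (fun g hg _ => hs g hg) (fun g hg _ => hs g hg)
    ?_ ?_
  · apply Nat.mul_pos
    · omega
    · have : s < (A.filter (· ≤ Q')).card := by omega
      omega
  · intro H hH3 hHQ _
    refine arith_plane (by omega) hN' ?_ ?_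
    · have h1 : A.filter (fun x => x ≤ H ∧ ¬ x ≤ Q') = (A.filter (· ≤ H)).filter (¬ · ≤ Q') := by
        rw [Finset.filter_filter]
      have h2 : A.filter (fun x => x ≤ H ∧ x ≤ Q') = (A.filter (· ≤ H)).filter (· ≤ Q') := by
        rw [Finset.filter_filter]
      rw [h1, h2]
      have h3 := Finset.card_filter_add_card_filter_not (s := A.filter (· ≤ H)) (· ≤ Q')
      have h4 := hmax H (Finset.mem_filter.mpr ⟨Finset.mem_univ _, hH3⟩)
      omega
    · by_cases h1 : 1 < (A.filter (fun x => x ≤ H ∧ x ≤ Q')).card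
      · obtain ⟨x, hx, y, hy, hxy⟩ := Finset.one_lt_card.mp h1
        rw [Finset.mem_filter] at hx hy
        refine (Finset.card_le_card ?_).trans
          (hs (x ⊔ y) (rk_line (hA x hx.1) (hA y hy.1) hxy))
        intro w hw
        rw [Finset.mem_filter] at hw ⊢
        exact ⟨hw.1, le_line_of_planes hQ3 hH3 hHQ (hA x hx.1) (hA y hy.1) (hA w hw.1) hxy
          hx.2.2 hy.2.2 hw.2.2 hx.2.1 hy.2.1 hw.2.1⟩
      · omega

end plane

end Pool.Agent.Helper80.LP
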