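import Pool.Agent.Helper63.HM.Hall
import Pool.Agent.Helper63.HM.Cone

/-!
# Rank four data from weighted pairs of points

Every point `z` outside a frame chooses two points `q`, `q'` with `z ⊔ q ⊔ q'` of rank three; it
uses the lines `z ⊔ q`, `z ⊔ q'` and the plane `z ⊔ q ⊔ q'`.
-/

set_option autoImplicit false
set_option linter.unusedSectionVars false

namespace Pool.Agent.Helper80.LP

open Pool.Agent.Helper28.BPack Pool.Agent.Helper61.Motz Pool.Agent.Helper63.HM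

variable {L : Type} [Lattice L] [BoundedOrder L] [Finite L] [IsUpperModularLattice L]

/-- The triple `v` uses the element `x`. -/
def Uses (v : L × L × L) (x : L) : Prop :=
  x = v.1 ⊔ v.2.1 ∨ x = v.1 ⊔ v.2.2 ∨ x = v.1 ⊔ v.2.1 ⊔ v.2.2

open Classical in
/-- The load of `x`. -/
noncomputable def ld (V0 : Finset (L × L × L)) (w : L × L × L → ℝ) (x : L) : ℝ :=
  ∑ u ∈ V0.filter (fun u => Uses u x), w u

theorem ld_nonneg {V0 : Finset (L × L × L)} {w : L × L × L → ℝ} (hw0 : ∀ v, 0 ≤ w v) (x : L) :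
    0 ≤ ld V0 w x := by
  classical
  exact Finset.sum_nonneg fun u _ => hw0 u

open Classical in
/-- The choice of pairs. -/
theorem pairs_choice {U : Finset L} {V0 : Finset (L × L × L)} {w : L × L × L → ℝ}
    (hw0 : ∀ v, 0 ≤ w v) (hVU : ∀ v ∈ V0, v.1 ∈ U)
    (hcount : ∀ z ∈ U, 1 ≤ ∑ v ∈ V0.filter (fun v => v.1 = z), w v)
    (hload : ∀ v ∈ V0, 0 < w v →
      ld V0 w (v.1 ⊔ v.2.1) + ld V0 w (v.1 ⊔ v.2.2) + ld V0 w (v.1 ⊔ v.2.1 ⊔ v.2.2) ≤ 1) :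
    ∃ c d : L → L, (∀ z ∈ U, (z, c z, d z) ∈ V0) ∧
      ∀ z ∈ U, ∀ z' ∈ U, z ≠ z' → ∀ x, ¬ (Uses (z, c z, d z) x ∧ Uses (z', c z', d z') x) := by
  classical
  have hsub : ∀ p : L × L × L → Prop, ∑ᶠ u ∈ {u : {v // v ∈ V0} | p u.1}, w u.1 =
      ∑ u ∈ V0.filter p, w u := by
    intro p
    rw [finsum_mem_eq_finite_toFinset_sum _ (Set.toFinite _)]
    refine Finset.sum_bij (fun u _ => u.1) ?_ ?_ ?_ ?_
    · intro u hu
      rw [Finset.mem_filter]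
      refine ⟨u.2, ?_⟩
      simpa using hu
    · intro u _ v _ h
      exact Subtype.ext h
    · intro v hv
      rw [Finset.mem_filter] at hv
      exact ⟨⟨v, hv.1⟩, by simpa using hv.2, rfl⟩
    · intro u _
      rfl
  obtain ⟨f, hf1, hf2, hf3⟩ := rainbow (V := {v // v ∈ V0}) (Q := L) (X := {z // z ∈ U})
    (fun v q => Uses v.1 q) (fun v => ⟨v.1.1, hVU v.1 v.2⟩) (fun v => w v.1)
    (fun v => hw0 _) (by
      intro v hv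
      have h1 : ∀ x, ∑ᶠ u ∈ {u : {v // v ∈ V0} | Uses u.1 x}, w u.1 = ld V0 w x := fun x =>
        hsub (fun u => Uses u x)
      simp only [h1]
      rw [finsum_mem_eq_finite_toFinset_sum _ (Set.toFinite _)]
      have h2 : (Set.toFinite {q | Uses v.1 q}).toFinset ⊆
          insert (v.1.1 ⊔ v.1.2.1) (insert (v.1.1 ⊔ v.1.2.2) {v.1.1 ⊔ v.1.2.1 ⊔ v.1.2.2}) := by
        intro x hx
        rw [Set.Finite.mem_toFinset] at hx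
        rw [Finset.mem_insert, Finset.mem_insert, Finset.mem_singleton]
        exact hx
      have hins : ∀ (a : L) (s : Finset L), ∑ x ∈ insert a s, ld V0 w x ≤
          ld V0 w a + ∑ x ∈ s, ld V0 w x := by
        intro a s
        by_cases ha : a ∈ s
        · rw [Finset.insert_eq_of_mem ha]
          have := ld_nonneg (V0 := V0) hw0 a
          linarith
        · rw [Finset.sum_insert ha]
      have h3 := Finset.sum_le_sum_of_subset_of_nonneg h2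
        (fun x _ _ => ld_nonneg (V0 := V0) hw0 x)
      have h4 := hins (v.1.1 ⊔ v.1.2.1)
        (insert (v.1.1 ⊔ v.1.2.2) {v.1.1 ⊔ v.1.2.1 ⊔ v.1.2.2})
      have h5 := hins (v.1.1 ⊔ v.1.2.2) {v.1.1 ⊔ v.1.2.1 ⊔ v.1.2.2}
      rw [Finset.sum_singleton] at h5
      have h6 := hload v.1 v.2 hv
      linarith) (by
      intro x
      have h1 := hsub (fun v => v.1 = x.1)
      have h2 := hcount x.1 x.2
      rw [← h1] at h2
      have h3 : {v : {v // v ∈ V0} | (⟨v.1.1, hVU v.1 v.2⟩ : {z // z ∈ U}) = x} =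
          {u : {v // v ∈ V0} | u.1.1 = x.1} := by
        ext u
        simp only [Set.mem_setOf_eq]
        rw [Subtype.ext_iff]
      rw [h3]
      exact h2)
  refine ⟨fun z => if h : z ∈ U then (f ⟨z, h⟩).1.2.1 else z,
    fun z => if h : z ∈ U then (f ⟨z, h⟩).1.2.2 else z, ?_, ?_⟩
  · intro z hz
    simp only [hz, dif_pos]
    have h1 : (f ⟨z, hz⟩).1.1 = z := congrArg Subtype.val (hf1 ⟨z, hz⟩)
    have h2 : (z, (f ⟨z, hz⟩).1.2.1, (f ⟨z, hz⟩).1.2.2) = (f ⟨z, hz⟩).1 := by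
      ext
      · exact h1.symm
      · rfl
      · rfl
    rw [h2]
    exact (f ⟨z, hz⟩).2
  · intro z hz z' hz' hne x hx
    simp only [hz, hz', dif_pos] at hx
    have h1 : (f ⟨z, hz⟩).1.1 = z := congrArg Subtype.val (hf1 ⟨z, hz⟩)
    have h1' : (f ⟨z', hz'⟩).1.1 = z' := congrArg Subtype.val (hf1 ⟨z', hz'⟩)
    have h2 : (z, (f ⟨z, hz⟩).1.2.1, (f ⟨z, hz⟩).1.2.2) = (f ⟨z, hz⟩).1 := by
      ext
      · exact h1.symm
      · rfl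
      · rfl
    have h2' : (z', (f ⟨z', hz'⟩).1.2.1, (f ⟨z', hz'⟩).1.2.2) = (f ⟨z', hz'⟩).1 := by
      ext
      · exact h1'.symm
      · rfl
      · rfl
    rw [h2, h2'] at hx
    exact hf3 ⟨z, hz⟩ ⟨z', hz'⟩ (fun h => hne (congrArg Subtype.val h)) x hx

open Classical in
/-- Rank four data from a frame `B` and weighted pairs. -/
theorem crit4_of_pairs {A B : Finset L} {V0 : Finset (L × L × L)} {w : L × L × L → ℝ}
    (hA : ∀ a ∈ A, IsAtom a) (hBA : B ⊆ A) (h4 : Crit4 B) (hw0 : ∀ v, 0 ≤ w v)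
    (hV1 : ∀ v ∈ V0, v.1 ∈ A ∧ v.1 ∉ B ∧ v.2.1 ∈ A ∧ v.2.2 ∈ A ∧ rk (v.1 ⊔ v.2.1 ⊔ v.2.2) = 3)
    (hV2 : ∀ v ∈ V0, ∀ a ∈ B, ∀ e ∈ B, a ≠ e → a ≤ v.1 ⊔ v.2.1 → e ≤ v.1 ⊔ v.2.1 → False)
    (hV3 : ∀ v ∈ V0, ∀ a ∈ B, ∀ e ∈ B, a ≠ e → a ≤ v.1 ⊔ v.2.2 → e ≤ v.1 ⊔ v.2.2 → False)
    (hV4 : ∀ v ∈ V0, ∀ a ∈ B, ∀ e ∈ B, ∀ t ∈ B, rk (a ⊔ e ⊔ t) = 3 →
      a ≤ v.1 ⊔ v.2.1 ⊔ v.2.2 → e ≤ v.1 ⊔ v.2.1 ⊔ v.2.2 → t ≤ v.1 ⊔ v.2.1 ⊔ v.2.2 → False)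
    (hcount : ∀ z ∈ A, z ∉ B → 1 ≤ ∑ v ∈ V0.filter (fun v => v.1 = z), w v)
    (hload : ∀ v ∈ V0, 0 < w v →
      ld V0 w (v.1 ⊔ v.2.1) + ld V0 w (v.1 ⊔ v.2.2) + ld V0 w (v.1 ⊔ v.2.1 ⊔ v.2.2) ≤ 1) :
    Crit4 A := by
  classical
  obtain ⟨c, d, h1, h2⟩ := pairs_choice (U := A.filter (· ∉ B)) hw0
    (fun v hv => Finset.mem_filter.mpr ⟨(hV1 v hv).1, (hV1 v hv).2.1⟩)
    (fun z hz => hcount z (Finset.mem_filter.mp hz).1 (Finset.mem_filter.mp hz).2) hload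
  have hm : ∀ x ∈ A, x ∉ B → x ∈ A.filter (· ∉ B) := fun x hx hxB =>
    Finset.mem_filter.mpr ⟨hx, hxB⟩
  refine nPeel (B := B) (c' := c) (d' := d) hA hBA h4 ?_ ?_ ?_ ?_ ?_ ?_ ?_ ?_
  · intro x hx hxB
    exact (hV1 _ (h1 x (hm x hx hxB))).2.2
  · intro x hx hxB y hy hyB e
    by_contra hne
    exact h2 x (hm x hx hxB) y (hm y hy hyB) hne (x ⊔ c x) ⟨Or.inl rfl, Or.inl e⟩
  · intro x hx hxB y hy hyB e
    by_contra hne
    exact h2 x (hm x hx hxB) y (hm y hy hyB) hne (x ⊔ d x)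
      ⟨Or.inr (Or.inl rfl), Or.inr (Or.inl e)⟩
  · intro x hx hxB y hy hyB e
    by_cases hne : x = y
    · subst hne
      have h3 := (hV1 _ (h1 x (hm x hx hxB))).2.2.2.2
      obtain ⟨-, -, h5⟩ := hV1 _ (h1 x (hm x hx hxB))
      have h6 : rk (x ⊔ c x ⊔ d x) = 3 := h3
      have h7 : x ⊔ c x ⊔ d x = x ⊔ c x := by
        apply sup_eq_left.mpr
        rw [e]
        exact le_sup_right
      rw [h7] at h6
      have h8 := rk_sup_atom_le (x := x) (hA _ h5.1)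
      rw [rk_atom (hA x hx)] at h8
      change rk (x ⊔ c x) ≤ 1 + 1 at h8
      omega
    · exact h2 x (hm x hx hxB) y (hm y hy hyB) hne (x ⊔ c x) ⟨Or.inl rfl, Or.inr (Or.inl e)⟩
  · intro x hx hxB y hy hyB e
    by_contra hne
    exact h2 x (hm x hx hxB) y (hm y hy hyB) hne (x ⊔ c x ⊔ d x)
      ⟨Or.inr (Or.inr rfl), Or.inr (Or.inr e)⟩
  · intro x hx hxB
    exact hV2 _ (h1 x (hm x hx hxB))
  · intro x hx hxB
    exact hV3 _ (h1 x (hm x hx hxB))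
  · intro x hx hxB
    exact hV4 _ (h1 x (hm x hx hxB))

open Classical in
/-- The load as a number. -/
noncomputable def ldn (V0 : Finset (L × L × L)) (x : L) : ℕ :=
  (V0.filter (fun u => Uses u x)).card

open Classical in
/-- Rank four data from a frame `B` and a count of pairs. -/
theorem crit4_of_count {A B : Finset L} {V0 : Finset (L × L × L)} {M : ℕ} (hM : 0 < M)
    (hA : ∀ a ∈ A, IsAtom a) (hBA : B ⊆ A) (h4 : Crit4 B)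
    (hV1 : ∀ v ∈ V0, v.1 ∈ A ∧ v.1 ∉ B ∧ v.2.1 ∈ A ∧ v.2.2 ∈ A ∧ rk (v.1 ⊔ v.2.1 ⊔ v.2.2) = 3)
    (hV2 : ∀ v ∈ V0, ∀ a ∈ B, ∀ e ∈ B, a ≠ e → a ≤ v.1 ⊔ v.2.1 → e ≤ v.1 ⊔ v.2.1 → False)
    (hV3 : ∀ v ∈ V0, ∀ a ∈ B, ∀ e ∈ B, a ≠ e → a ≤ v.1 ⊔ v.2.2 → e ≤ v.1 ⊔ v.2.2 → False)
    (hV4 : ∀ v ∈ V0, ∀ a ∈ B, ∀ e ∈ B, ∀ t ∈ B, rk (a ⊔ e ⊔ t) = 3 →
      a ≤ v.1 ⊔ v.2.1 ⊔ v.2.2 → e ≤ v.1 ⊔ v.2.1 ⊔ v.2.2 → t ≤ v.1 ⊔ v.2.1 ⊔ v.2.2 → False)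
    (hcount : ∀ z ∈ A, z ∉ B → M ≤ (V0.filter (fun v => v.1 = z)).card)
    (hload : ∀ v ∈ V0,
      ldn V0 (v.1 ⊔ v.2.1) + ldn V0 (v.1 ⊔ v.2.2) + ldn V0 (v.1 ⊔ v.2.1 ⊔ v.2.2) ≤ M) :
    Crit4 A := by
  classical
  have hMR : (0 : ℝ) < M := by exact_mod_cast hM
  have hld : ∀ x, ld V0 (fun _ => (M : ℝ)⁻¹) x = (ldn V0 x : ℝ) * (M : ℝ)⁻¹ := by
    intro x
    unfold ld ldn
    rw [Finset.sum_const, nsmul_eq_mul]
  refine crit4_of_pairs (V0 := V0) (w := fun _ => (M : ℝ)⁻¹) hA hBA h4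
    (fun _ => (inv_pos.mpr hMR).le) hV1 hV2 hV3 hV4 ?_ ?_
  · intro z hz hzB
    rw [Finset.sum_const, nsmul_eq_mul]
    have h1 : (M : ℝ) ≤ ((V0.filter (fun v => v.1 = z)).card : ℝ) := by
      exact_mod_cast hcount z hz hzB
    calc (1 : ℝ) = M * (M : ℝ)⁻¹ := (mul_inv_cancel₀ hMR.ne').symm
      _ ≤ _ := mul_le_mul_of_nonneg_right h1 (inv_pos.mpr hMR).le
  · intro v hv _
    rw [hld, hld, hld, ← add_mul, ← add_mul]
    have h1 : ((ldn V0 (v.1 ⊔ v.2.1) : ℝ) + ldn V0 (v.1 ⊔ v.2.2) +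
        ldn V0 (v.1 ⊔ v.2.1 ⊔ v.2.2)) ≤ M := by
      exact_mod_cast hload v hv
    calc _ ≤ (M : ℝ) * (M : ℝ)⁻¹ := mul_le_mul_of_nonneg_right h1 (inv_pos.mpr hMR).le
      _ = 1 := mul_inv_cancel₀ hMR.ne'

end Pool.Agent.Helper80.LP
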